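import Mathlib

/-!
Combinatorial upper bound: for the hierarchical label function `glab` every monotone chain with
pairwise distinct sums is short.
-/

set_option autoImplicit false

namespace Pool.Agent.Helper208.Harmonic
open Finset

/-- multiplication by `-u/v` modulo `K` -/
def sig (K u v τ : ℕ) : ℕ := (-(u : ZMod K) * (v : ZMod K)⁻¹ * (τ : ZMod K)).val

section
variable {K : ℕ} [hK : Fact K.Prime]

lemma sig_lt (u v τ : ℕ) : sig K u v τ < K := ZMod.val_lt _

lemma sig_inj {u v : ℕ} (hu : 0 < u) (huK : u < K) (hv : 0 < v) (hvK : v < K) {τ τ' : ℕ}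
    (hτ : τ < K) (hτ' : τ' < K) (h : sig K u v τ = sig K u v τ') : τ = τ' := by
  unfold sig at h
  have h1 := ZMod.val_injective K h
  have hu0 : (u : ZMod K) ≠ 0 := by
    intro h0
    rw [ZMod.natCast_eq_zero_iff] at h0
    exact absurd (Nat.le_of_dvd hu h0) (by omega)
  have hv0 : (v : ZMod K) ≠ 0 := by
    intro h0
    rw [ZMod.natCast_eq_zero_iff] at h0
    exact absurd (Nat.le_of_dvd hv h0) (by omega)
  have h2 : -(u : ZMod K) * (v : ZMod K)⁻¹ ≠ 0 := mul_ne_zero (neg_ne_zero.mpr hu0) (inv_ne_zero hv0)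
  have h3 := mul_left_cancel₀ h2 h1
  rw [ZMod.natCast_eq_natCast_iff'] at h3
  rwa [Nat.mod_eq_of_lt hτ, Nat.mod_eq_of_lt hτ'] at h3

lemma sig_dvd {u v : ℕ} (hv : 0 < v) (hvK : v < K) (τ : ℕ) : K ∣ v * sig K u v τ + u * τ := by
  have hv0 : (v : ZMod K) ≠ 0 := by
    intro h0
    rw [ZMod.natCast_eq_zero_iff] at h0
    exact absurd (Nat.le_of_dvd hv h0) (by omega)
  rw [← ZMod.natCast_eq_zero_iff]
  unfold sig
  push_cast
  rw [ZMod.natCast_val, ZMod.cast_id]
  field_simp
  ring

/-- digitwise label function -/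
def lab (K : ℕ) : List (ℕ × ℕ) → ℕ → ℕ
  | [], _ => 0
  | (x :: ps), t => sig K x.1 x.2 (t / K ^ ps.length) * K ^ ps.length
      + lab K ps (t % K ^ ps.length)

lemma Kpos : 0 < K := hK.out.pos

lemma lab_lt (ps : List (ℕ × ℕ)) : ∀ t, lab K ps t < K ^ ps.length := by
  induction ps with
  | nil => intro t; simp [lab]
  | cons x ps ih =>
    intro t
    simp only [lab, List.length_cons, pow_succ]
    have h1 := sig_lt (K := K) x.1 x.2 (t / K ^ ps.length)
    have h2 := ih (t % K ^ ps.length)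
    calc _ < sig K x.1 x.2 (t / K ^ ps.length) * K ^ ps.length + K ^ ps.length := by omega
      _ = (sig K x.1 x.2 (t / K ^ ps.length) + 1) * K ^ ps.length := by ring
      _ ≤ K * K ^ ps.length := Nat.mul_le_mul_right _ h1
      _ = K ^ ps.length * K := by ring

/-- comparing quotient and remainder -/
lemma div_mod_unique {a b c d m : ℕ} (hc : c < m) (hd : d < m) (h : a * m + c = b * m + d) :
    a = b ∧ c = d := by
  have hm : 0 < m := by omega
  have h1 : (a * m + c) / m = a := by
    rw [Nat.add_comm, Nat.add_mul_div_right _ _ hm, Nat.div_eq_of_lt hc, zero_add]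
  have h2 : (b * m + d) / m = b := by
    rw [Nat.add_comm, Nat.add_mul_div_right _ _ hm, Nat.div_eq_of_lt hd, zero_add]
  have h3 : a = b := by rw [← h1, ← h2, h]
  subst h3
  exact ⟨rfl, by omega⟩

lemma lab_inj (ps : List (ℕ × ℕ)) (hps : ∀ x ∈ ps, 0 < x.1 ∧ x.1 < K ∧ 0 < x.2 ∧ x.2 < K) :
    ∀ t < K ^ ps.length, ∀ t' < K ^ ps.length, lab K ps t = lab K ps t' → t = t' := by
  induction ps with
  | nil => intro t ht t' ht' _; simp at ht ht'; omega
  | cons x ps ih =>
    intro t ht t' ht' h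
    simp only [lab, List.length_cons, pow_succ] at h ht ht'
    have hpos : 0 < K ^ ps.length := Nat.pow_pos Kpos
    obtain ⟨h1, h2⟩ := div_mod_unique (lab_lt ps _) (lab_lt ps _) h
    have hx := hps x (by simp)
    have h3 := sig_inj hx.1 hx.2.1 hx.2.2.1 hx.2.2.2
      (Nat.div_lt_of_lt_mul (by rw [mul_comm] at ht; rw [mul_comm]; exact ht))
      (Nat.div_lt_of_lt_mul (by rw [mul_comm] at ht'; rw [mul_comm]; exact ht')) h1
    have h4 := ih (fun y hy => hps y (by simp [hy])) _ (Nat.mod_lt _ hpos) _ (Nat.mod_lt _ hpos) h2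
    rw [← Nat.div_add_mod t (K ^ ps.length), ← Nat.div_add_mod t' (K ^ ps.length), h3, h4]

lemma lab_struct (ps : List (ℕ × ℕ)) : ∀ x ∈ ps, ∃ (Bn M : ℕ) (Y : ℕ → ℕ), 0 < Bn ∧ 0 < M ∧
    Bn * K * M = K ^ ps.length ∧
    ∀ t < K ^ ps.length, lab K ps t / M = Y (t / (K * M)) * K + sig K x.1 x.2 ((t / M) % K) := by
  induction ps with
  | nil => intro x hx; simp at hx
  | cons y ps ih =>
    intro x hx
    have hpos : 0 < K ^ ps.length := Nat.pow_pos Kpos
    rcases List.mem_cons.mp hx with rfl | hx'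
    · refine ⟨1, K ^ ps.length, fun _ => 0, one_pos, hpos, ?_, ?_⟩
      · simp only [List.length_cons, pow_succ]; ring
      · intro t ht
        simp only [List.length_cons, pow_succ] at ht
        have h1 : t / K ^ ps.length < K :=
          Nat.div_lt_of_lt_mul ht
        simp only [lab]
        rw [Nat.add_comm, Nat.add_mul_div_right _ _ hpos, Nat.div_eq_of_lt (lab_lt ps _),
          Nat.mod_eq_of_lt h1]
        ring
    · obtain ⟨Bn, M, Y, hBn, hM, hprod, hY⟩ := ih x hx'
      refine ⟨K * Bn, M, fun z => sig K y.1 y.2 (z / Bn) * Bn + Y (z % Bn), ?_, hM, ?_, ?_⟩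
      · exact Nat.mul_pos Kpos hBn
      · simp only [List.length_cons, pow_succ]
        rw [← hprod]; ring
      · intro t ht
        simp only [List.length_cons, pow_succ] at ht
        simp only [lab]
        set L' := K ^ ps.length with hL'
        set t1 := t / L' with ht1
        set t2 := t % L' with ht2
        have ht12 : t = t1 * L' + t2 := by
          rw [ht1, ht2, mul_comm]; exact (Nat.div_add_mod t L').symm
        have ht2lt : t2 < L' := Nat.mod_lt _ hpos
        have hL'2 : L' = (Bn * K) * M := hprod.symm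
        have hKM : 0 < K * M := Nat.mul_pos Kpos hM
        have e1 : (sig K y.1 y.2 t1 * L' + lab K ps t2) / M
            = sig K y.1 y.2 t1 * (Bn * K) + lab K ps t2 / M := by
          rw [hL'2, Nat.add_comm, ← mul_assoc, Nat.add_mul_div_right _ _ hM, Nat.add_comm]
        have e2 : t / M = t1 * (Bn * K) + t2 / M := by
          rw [ht12, hL'2, Nat.add_comm, ← mul_assoc, Nat.add_mul_div_right _ _ hM, Nat.add_comm]
        have e3 : t / (K * M) = t1 * Bn + t2 / (K * M) := by
          rw [ht12, hL'2, Nat.add_comm]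
          have : t1 * (Bn * K * M) = (t1 * Bn) * (K * M) := by ring
          rw [this, Nat.add_mul_div_right _ _ hKM, Nat.add_comm]
        have e4 : t2 / (K * M) < Bn := by
          apply Nat.div_lt_of_lt_mul
          calc t2 < L' := ht2lt
            _ = K * M * Bn := by rw [hL'2]; ring
        have e5 : (t / (K * M)) / Bn = t1 := by
          rw [e3, Nat.add_comm, Nat.add_mul_div_right _ _ hBn, Nat.div_eq_of_lt e4, zero_add]
        have e6 : (t / (K * M)) % Bn = t2 / (K * M) := by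
          rw [e3, Nat.add_comm, Nat.add_mul_mod_self_right, Nat.mod_eq_of_lt e4]
        have e7 : (t / M) % K = (t2 / M) % K := by
          rw [e2, Nat.add_comm]
          have : t1 * (Bn * K) = (t1 * Bn) * K := by ring
          rw [this, Nat.add_mul_mod_self_right]
        rw [e1, e5, e6, e7, hY t2 ht2lt]
        ring

/-- iterated composition -/
def tower (Q : ℕ → ℕ) (L : ℕ) : ℕ → ℕ → ℕ
  | 0, _ => 0
  | R + 1, j => Q (j / L ^ R) * L ^ R + tower Q L R (j % L ^ R)

end

lemma tower_lt (Q : ℕ → ℕ) (L : ℕ) (_hL : 0 < L) (hQ : ∀ t, Q t < L) :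
    ∀ R j, tower Q L R j < L ^ R := by
  intro R
  induction R with
  | zero => intro j; simp [tower]
  | succ R ih =>
    intro j
    simp only [tower, pow_succ]
    have h1 := hQ (j / L ^ R)
    have h2 := ih (j % L ^ R)
    calc _ < Q (j / L ^ R) * L ^ R + L ^ R := by omega
      _ = (Q (j / L ^ R) + 1) * L ^ R := by ring
      _ ≤ L * L ^ R := Nat.mul_le_mul_right _ h1
      _ = L ^ R * L := by ring

lemma tower_inj (Q : ℕ → ℕ) (L : ℕ) (hL : 0 < L) (hQ : ∀ t, Q t < L)
    (hQi : ∀ t < L, ∀ t' < L, Q t = Q t' → t = t') :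
    ∀ R, ∀ j < L ^ R, ∀ j' < L ^ R, tower Q L R j = tower Q L R j' → j = j' := by
  intro R
  induction R with
  | zero => intro j hj j' hj' _; simp at hj hj'; omega
  | succ R ih =>
    intro j hj j' hj' h
    simp only [tower, pow_succ] at h hj hj'
    have hpos : 0 < L ^ R := Nat.pow_pos hL
    obtain ⟨h1, h2⟩ := div_mod_unique (tower_lt Q L hL hQ R _) (tower_lt Q L hL hQ R _) h
    have h3 := hQi _ (Nat.div_lt_of_lt_mul hj) _ (Nat.div_lt_of_lt_mul hj') h1
    have h4 := ih _ (Nat.mod_lt _ hpos) _ (Nat.mod_lt _ hpos) h2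
    rw [← Nat.div_add_mod j (L ^ R), ← Nat.div_add_mod j' (L ^ R), h3, h4]


/-- strictly monotone finite relation: red index first, blue index second -/
def Chain (C : Finset (ℕ × ℕ)) : Prop :=
  ∀ c ∈ C, ∀ c' ∈ C, c ≠ c' → (c.1 < c'.1 ∧ c.2 < c'.2) ∨ (c'.1 < c.1 ∧ c'.2 < c.2)

lemma Chain.subset {C C' : Finset (ℕ × ℕ)} (h : Chain C) (hs : C' ⊆ C) : Chain C' :=
  fun c hc c' hc' hne => h c (hs hc) c' (hs hc') hne

lemma Chain.card_le_red {C : Finset (ℕ × ℕ)} (h : Chain C) (α a : ℕ)
    (hr : ∀ c ∈ C, α ≤ c.1 ∧ c.1 < α + a) : C.card ≤ a := by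
  have h1 : (C.image Prod.fst).card = C.card := by
    apply Finset.card_image_of_injOn
    intro c hc c' hc' hcc
    by_contra hne
    rcases h c hc c' hc' hne with h | h
    · exact absurd hcc (by have := h.1; exact ne_of_lt this)
    · exact absurd hcc (by have := h.1; exact ne_of_gt this)
  rw [← h1]
  calc _ ≤ (Finset.Ico α (α + a)).card := by
        apply Finset.card_le_card
        intro x hx
        rw [Finset.mem_image] at hx
        obtain ⟨c, hc, rfl⟩ := hx
        exact Finset.mem_Ico.mpr (hr c hc)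
    _ = a := by simp

lemma Chain.card_le_blue {C : Finset (ℕ × ℕ)} (h : Chain C) (l : ℕ)
    (hr : ∀ c ∈ C, c.2 < l) : C.card ≤ l := by
  have h1 : (C.image Prod.snd).card = C.card := by
    apply Finset.card_image_of_injOn
    intro c hc c' hc' hcc
    by_contra hne
    rcases h c hc c' hc' hne with h | h
    · exact absurd hcc (by have := h.2; exact ne_of_lt this)
    · exact absurd hcc (by have := h.2; exact ne_of_gt this)
  rw [← h1]
  calc _ ≤ (Finset.range l).card := by
        apply Finset.card_le_card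
        intro x hx
        rw [Finset.mem_image] at hx
        obtain ⟨c, hc, rfl⟩ := hx
        exact Finset.mem_range.mpr (hr c hc)
    _ = l := by simp

/-- splitting the reds among consecutive blue blocks -/
lemma exists_phi (C : Finset (ℕ × ℕ)) (hC : Chain C) (α a l : ℕ) (hl : 0 < l)
    (hr : ∀ c ∈ C, α ≤ c.1 ∧ c.1 < α + a) (L : ℕ) (hL : 0 < L) (hb : ∀ c ∈ C, c.2 < L * l) :
    ∃ φ : ℕ → ℕ, Monotone φ ∧ φ 0 = α ∧ φ L = α + a ∧
      ∀ c ∈ C, φ (c.2 / l) ≤ c.1 ∧ c.1 < φ (c.2 / l + 1) := by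
  classical
  set S : ℕ → Set ℕ := fun t => insert (α + a) {x | ∃ c ∈ C, t * l ≤ c.2 ∧ c.1 = x} with hS
  have hSne : ∀ t, (S t).Nonempty := fun t => ⟨α + a, by simp [hS]⟩
  have hSmono : ∀ t t', t ≤ t' → S t' ⊆ S t := by
    intro t t' htt x hx
    simp only [hS, Set.mem_insert_iff, Set.mem_ofPred_eq] at hx ⊢
    rcases hx with rfl | ⟨c, hc, h1, h2⟩
    · left; rfl
    · right
      exact ⟨c, hc, le_trans (Nat.mul_le_mul_right _ htt) h1, h2⟩
  have hSge : ∀ t, α ≤ sInf (S t) := by
    intro t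
    have := Nat.sInf_mem (hSne t)
    simp only [hS, Set.mem_insert_iff, Set.mem_ofPred_eq] at this
    rcases this with h | ⟨c, hc, h1, h2⟩
    · simp only [hS]; rw [h]; omega
    · simp only [hS]; rw [← h2]; exact (hr c hc).1
  refine ⟨fun t => if t = 0 then α else sInf (S t), ?_, ?_, ?_, ?_⟩
  · intro t t' htt
    simp only
    split_ifs with h1 h2 h3
    · exact le_rfl
    · exact hSge t'
    · omega
    · exact Nat.sInf_le (hSmono t t' htt (Nat.sInf_mem (hSne t')))
  · simp
  · simp only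
    rw [if_neg (by omega)]
    have := Nat.sInf_mem (hSne L)
    simp only [hS, Set.mem_insert_iff, Set.mem_ofPred_eq] at this
    rcases this with h | ⟨c, hc, h1, h2⟩
    · exact h
    · have := hb c hc
      omega
  · intro c hc
    have hq := Nat.div_add_mod c.2 l
    have hm := Nat.mod_lt c.2 hl
    constructor
    · simp only
      split_ifs with h1
      · exact (hr c hc).1
      · apply Nat.sInf_le
        simp only [hS, Set.mem_insert_iff, Set.mem_ofPred_eq]
        right
        exact ⟨c, hc, Nat.div_mul_le_self _ _, rfl⟩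
    · simp only
      rw [if_neg (Nat.succ_ne_zero _)]
      have := Nat.sInf_mem (hSne (c.2 / l + 1))
      simp only [hS, Set.mem_insert_iff, Set.mem_ofPred_eq] at this
      rcases this with h | ⟨c', hc', h1, h2⟩
      · simp only [hS]; rw [h]; exact (hr c hc).2
      · simp only [hS]; rw [← h2]
        have hlt : c.2 < c'.2 := by
          have h3 : c.2 < (c.2 / l + 1) * l := by
            rw [add_mul, one_mul]
            calc c.2 = l * (c.2 / l) + c.2 % l := hq.symm
              _ < l * (c.2 / l) + l := by omega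
              _ = c.2 / l * l + l := by ring
          exact lt_of_lt_of_le h3 h1
        have hne : c ≠ c' := by rintro rfl; omega
        rcases hC c hc c' hc' hne with h | h
        · exact h.1
        · omega

/-- a set of integers whose `v`-multiples lie in a short window is small -/
lemma card_window (S : Finset ℤ) (v X Z : ℤ) (hv : 0 < v) (hZ : 0 ≤ Z)
    (h : ∀ s ∈ S, X ≤ v * s ∧ v * s < X + Z) : (S.card : ℤ) * v ≤ Z + v := by
  rcases S.eq_empty_or_nonempty with rfl | hne
  · simp; linarith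
  set a := S.min' hne with ha
  set b := S.max' hne with hb
  have h1 := h a (Finset.min'_mem S hne)
  have h2 := h b (Finset.max'_mem S hne)
  have hab : a ≤ b := Finset.min'_le S b (Finset.max'_mem S hne)
  have hsub : S ⊆ Finset.Icc a b := fun x hx =>
    Finset.mem_Icc.mpr ⟨Finset.min'_le S x hx, Finset.le_max' S x hx⟩
  have hc := Finset.card_le_card hsub
  rw [Int.card_Icc] at hc
  have hc' : (S.card : ℤ) ≤ b + 1 - a := by
    have : (((b + 1 - a).toNat : ℕ) : ℤ) = b + 1 - a := Int.toNat_of_nonneg (by linarith)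
    rw [← this]; exact_mod_cast hc
  calc (S.card : ℤ) * v ≤ (b + 1 - a) * v := mul_le_mul_of_nonneg_right hc' hv.le
    _ = (v * b - v * a) + v := by ring
    _ ≤ Z + v := by linarith

/-- The sums in one block are crowded into few short windows. -/
lemma block_bound {K : ℕ} [hK : Fact K.Prime] (u v : ℕ) (hv : 0 < v) (hvK : v < K)
    (lam : ℕ) (φ : ℕ → ℕ) (q : ℕ → ℕ)
    (b Y : ℕ) (C : Finset (ℕ × ℕ))
    (hblock : ∀ c ∈ C, (c.2 / lam) / K = b)
    (hphi : ∀ c ∈ C, φ (c.2 / lam) ≤ c.1 ∧ c.1 < φ (c.2 / lam + 1))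
    (hlam : 0 < lam)
    (hq : ∀ c ∈ C, q c.2 / lam = Y * K + sig K u v ((c.2 / lam) % K))
    (hinj : ∀ c ∈ C, ∀ c' ∈ C, c.1 + q c.2 = c'.1 + q c'.2 → c = c') :
    (C.card : ℤ) * v ≤ (u + v) * (2 * (∑ τ ∈ Finset.range K,
      |(v : ℤ) * ((φ (b * K + τ + 1) : ℤ) - φ (b * K + τ)) - u * lam|) + (u + v) * lam + v) := by
  classical
  have hKpos : 0 < K := hK.out.pos
  set E : ℤ := ∑ τ ∈ Finset.range K,
      |(v : ℤ) * ((φ (b * K + τ + 1) : ℤ) - φ (b * K + τ)) - u * lam| with hE
  have hE0 : 0 ≤ E := Finset.sum_nonneg (fun _ _ => abs_nonneg _)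
  -- deviation from the straight line
  have herr : ∀ τ ≤ K, |(v : ℤ) * ((φ (b * K + τ) : ℤ) - φ (b * K)) - u * lam * τ| ≤ E := by
    intro τ hτ
    have h1 : (v : ℤ) * ((φ (b * K + τ) : ℤ) - φ (b * K)) - u * lam * τ
        = ∑ j ∈ Finset.range τ,
          ((v : ℤ) * ((φ (b * K + j + 1) : ℤ) - φ (b * K + j)) - u * lam) := by
      rw [Finset.sum_sub_distrib, ← Finset.mul_sum]
      have := Finset.sum_range_sub (fun j => (φ (b * K + j) : ℤ)) τ
      simp only [Nat.add_zero] at this
      simp only [← Nat.add_assoc] at this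
      rw [this]
      simp only [Finset.sum_const, Finset.card_range, nsmul_eq_mul]
      ring
    rw [h1]
    calc _ ≤ ∑ j ∈ Finset.range τ,
          |(v : ℤ) * ((φ (b * K + j + 1) : ℤ) - φ (b * K + j)) - u * lam| :=
          Finset.abs_sum_le_sum_abs _ _
      _ ≤ E := by
          rw [hE]
          apply Finset.sum_le_sum_of_subset_of_nonneg
          · intro x hx
            rw [Finset.mem_range] at hx ⊢
            omega
          · intro _ _ _; exact abs_nonneg _
  -- the line index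
  set kk : ℕ × ℕ → ℕ := fun c => (v * sig K u v ((c.2 / lam) % K) + u * ((c.2 / lam) % K)) / K
    with hkk
  have hkeq : ∀ c : ℕ × ℕ, K * kk c = v * sig K u v ((c.2 / lam) % K) + u * ((c.2 / lam) % K) :=
    fun c => Nat.mul_div_cancel' (sig_dvd hv hvK _)
  have hklt : ∀ c ∈ C, kk c ∈ Finset.range (u + v) := by
    intro c _
    rw [Finset.mem_range]
    have h1 := sig_lt (K := K) u v ((c.2 / lam) % K)
    have h2 : (c.2 / lam) % K < K := Nat.mod_lt _ hKpos
    have h3 := hkeq c
    have h4 : v * sig K u v ((c.2 / lam) % K) + u * ((c.2 / lam) % K) < K * (u + v) := by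
      calc v * sig K u v ((c.2 / lam) % K) + u * ((c.2 / lam) % K)
          ≤ v * sig K u v ((c.2 / lam) % K) + u * K := by
            apply Nat.add_le_add_left; exact Nat.mul_le_mul_left _ h2.le
        _ < v * K + u * K := by
            apply Nat.add_lt_add_right; exact Nat.mul_lt_mul_of_pos_left h1 hv
        _ = K * (u + v) := by ring
    rw [← h3] at h4
    exact Nat.lt_of_mul_lt_mul_left h4
  have hfib : ∀ k ∈ Finset.range (u + v),
      ((C.filter (fun c => kk c = k)).card : ℤ) * v ≤ 2 * E + (u + v) * lam + v := by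
    intro k _
    set S : Finset ℤ := (C.filter (fun c => kk c = k)).image
      (fun c => ((c.1 + q c.2 : ℕ) : ℤ)) with hS
    have hcard : S.card = (C.filter (fun c => kk c = k)).card := by
      rw [hS]
      apply Finset.card_image_of_injOn
      intro c hc c' hc' hcc
      rw [Finset.mem_coe, Finset.mem_filter] at hc hc'
      simp only at hcc
      exact hinj c hc.1 c' hc'.1 (by exact_mod_cast hcc)
    rw [← hcard]
    apply card_window S v ((v : ℤ) * φ (b * K) + v * (Y * K * lam) + K * k * lam - E)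
      (2 * E + (u + v) * lam) (by exact_mod_cast hv) (by positivity)
    intro s hs
    rw [hS, Finset.mem_image] at hs
    obtain ⟨c, hc, rfl⟩ := hs
    rw [Finset.mem_filter] at hc
    obtain ⟨hcC, hck⟩ := hc
    set T := c.2 / lam with hT
    set τ := T % K with hτ
    have hτK : τ < K := Nat.mod_lt _ hKpos
    have hTb : T = b * K + τ := by
      have h1 := Nat.div_add_mod T K
      rw [hblock c hcC] at h1
      rw [hτ]; rw [mul_comm] at h1; exact h1.symm
    have hp := hphi c hcC
    rw [← hT, hTb] at hp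
    have hqc := hq c hcC
    rw [← hT] at hqc
    change q c.2 / lam = Y * K + sig K u v τ at hqc
    have hqd := Nat.div_add_mod (q c.2) lam
    rw [hqc] at hqd
    have hqm := Nat.mod_lt (q c.2) hlam
    have hke := hkeq c
    rw [hck] at hke
    change K * k = v * sig K u v τ + u * τ at hke
    have he1 := herr τ hτK.le
    have he2 := herr (τ + 1) hτK
    rw [abs_le] at he1 he2
    obtain ⟨he1a, he1b⟩ := he1
    obtain ⟨he2a, he2b⟩ := he2
    have hke' : (K : ℤ) * k = v * sig K u v τ + u * τ := by exact_mod_cast hke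
    have hqd' : (lam : ℤ) * (Y * K + sig K u v τ) + (q c.2 % lam : ℕ) = q c.2 := by
      exact_mod_cast hqd
    have hqm' : ((q c.2 % lam : ℕ) : ℤ) < lam := by exact_mod_cast hqm
    have hqm0 : (0 : ℤ) ≤ ((q c.2 % lam : ℕ) : ℤ) := by positivity
    have hp1 : (φ (b * K + τ) : ℤ) ≤ c.1 := by exact_mod_cast hp.1
    have hp2 : (c.1 : ℤ) + 1 ≤ φ (b * K + τ + 1) := by exact_mod_cast hp.2
    have hv' : (0 : ℤ) < v := by exact_mod_cast hv
    have hadd : φ (b * K + (τ + 1)) = φ (b * K + τ + 1) := rfl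
    rw [hadd] at he2a he2b
    push_cast at he2a he2b ⊢
    have m1 : (v : ℤ) * φ (b * K + τ) ≤ v * c.1 := mul_le_mul_of_nonneg_left hp1 hv'.le
    have m2 : (v : ℤ) * (c.1 + 1) ≤ v * φ (b * K + τ + 1) := mul_le_mul_of_nonneg_left hp2 hv'.le
    have m3 : (v : ℤ) * ((q c.2 % lam : ℕ) : ℤ) ≤ v * lam := mul_le_mul_of_nonneg_left hqm'.le hv'.le
    have m4 : (0 : ℤ) ≤ (v : ℤ) * ((q c.2 % lam : ℕ) : ℤ) := mul_nonneg hv'.le hqm0
    have m5 : (v : ℤ) * (q c.2 : ℤ) = v * (lam * (Y * K + sig K u v τ)) + v * ((q c.2 % lam : ℕ) : ℤ) := by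
      rw [← hqd']; ring
    have m6 : (K : ℤ) * k * lam = (v * sig K u v τ + u * τ) * lam := by rw [hke']
    constructor
    · linarith
    · linarith
  have hsum : C.card = ∑ k ∈ Finset.range (u + v), (C.filter (fun c => kk c = k)).card :=
    Finset.card_eq_sum_card_fiberwise hklt
  rw [hsum]
  push_cast
  rw [Finset.sum_mul]
  calc _ ≤ ∑ k ∈ Finset.range (u + v), (2 * E + ((u : ℤ) + v) * lam + v) :=
        Finset.sum_le_sum hfib
    _ = _ := by
        rw [Finset.sum_const, Finset.card_range, nsmul_eq_mul]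
        push_cast
        ring


lemma sum_range_mul' {β : Type*} [AddCommMonoid β] (f : ℕ → β) (A B : ℕ) :
    ∑ t ∈ Finset.range (A * B), f t
      = ∑ x ∈ Finset.range A, ∑ y ∈ Finset.range B, f (x * B + y) := by
  induction A with
  | zero => simp
  | succ A ih =>
    rw [Finset.sum_range_succ, ← ih, Nat.succ_mul, Finset.sum_range_add]

lemma energy_ineq {ι : Type*} (s : Finset ι) (a : ι → ℝ) (lam : ℝ) (hlam : 0 < lam)
    (ha : ∀ i ∈ s, 0 ≤ a i) (hs : s.Nonempty) (u v θ : ℝ) (hu : 0 ≤ u) (hv : 0 ≤ v) (hθ : 0 < θ) :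
    ∑ i ∈ s, |v * a i - u * lam| ≤
      (u + v) * (θ / 2 * (∑ i ∈ s, a i + s.card * lam) +
        (∑ i ∈ s, a i ^ 2 / (a i + lam) -
          (∑ i ∈ s, a i) ^ 2 / (∑ i ∈ s, a i + s.card * lam)) / (2 * θ)) +
      |(u + v) * ((∑ i ∈ s, a i) / (∑ i ∈ s, a i + s.card * lam)) - u| *
        (∑ i ∈ s, a i + s.card * lam) := by
  set A := ∑ i ∈ s, a i with hA
  have hA0 : 0 ≤ A := Finset.sum_nonneg ha
  have hcard : (0 : ℝ) < s.card := by exact_mod_cast Finset.card_pos.mpr hs
  set w := A + s.card * lam with hw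
  have hw0 : 0 < w := by positivity
  set P := A / w with hP
  have hwsum : ∑ i ∈ s, (a i + lam) = w := by
    rw [Finset.sum_add_distrib, Finset.sum_const, nsmul_eq_mul]
  have key : ∀ i ∈ s, |v * a i - u * lam| ≤
      (u + v) * (θ / 2 * (a i + lam) + ((a i - P * (a i + lam)) ^ 2 / (a i + lam)) / (2 * θ))
      + |(u + v) * P - u| * (a i + lam) := by
    intro i hi
    have hai := ha i hi
    have hwi : 0 < a i + lam := by linarith
    have e1 : v * a i - u * lam = (u + v) * (a i - P * (a i + lam))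
        + ((u + v) * P - u) * (a i + lam) := by ring
    have e2 : |a i - P * (a i + lam)| ≤
        θ / 2 * (a i + lam) + ((a i - P * (a i + lam)) ^ 2 / (a i + lam)) / (2 * θ) := by
      set d := a i - P * (a i + lam) with hd
      have h1 : 0 ≤ (|d| - θ * (a i + lam)) ^ 2 := sq_nonneg _
      have h2 : |d| ^ 2 = d ^ 2 := sq_abs d
      have h3 : θ / 2 * (a i + lam) + (d ^ 2 / (a i + lam)) / (2 * θ) - |d|
          = (|d| - θ * (a i + lam)) ^ 2 / (2 * θ * (a i + lam)) := by
        rw [← h2]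
        field_simp
        ring
      have h4 : 0 ≤ (|d| - θ * (a i + lam)) ^ 2 / (2 * θ * (a i + lam)) := by positivity
      linarith
    calc |v * a i - u * lam| = |(u + v) * (a i - P * (a i + lam))
        + ((u + v) * P - u) * (a i + lam)| := by rw [e1]
      _ ≤ |(u + v) * (a i - P * (a i + lam))| + |((u + v) * P - u) * (a i + lam)| :=
          abs_add_le _ _
      _ = (u + v) * |a i - P * (a i + lam)| + |(u + v) * P - u| * (a i + lam) := by
          rw [abs_mul, abs_mul, abs_of_nonneg (show 0 ≤ u + v by linarith), abs_of_pos hwi]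
      _ ≤ _ := by
          have := mul_le_mul_of_nonneg_left e2 (show 0 ≤ u + v by linarith)
          linarith
  have hvar : ∑ i ∈ s, (a i - P * (a i + lam)) ^ 2 / (a i + lam)
      = ∑ i ∈ s, a i ^ 2 / (a i + lam) - A ^ 2 / w := by
    have e : ∀ i ∈ s, (a i - P * (a i + lam)) ^ 2 / (a i + lam)
        = a i ^ 2 / (a i + lam) - 2 * P * a i + P ^ 2 * (a i + lam) := by
      intro i hi
      have hai := ha i hi
      have hwi : 0 < a i + lam := by linarith
      field_simp
      ring
    rw [Finset.sum_congr rfl e, Finset.sum_add_distrib, Finset.sum_sub_distrib,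
      ← Finset.mul_sum, ← Finset.mul_sum, hwsum, ← hA, hP]
    field_simp
    ring
  calc ∑ i ∈ s, |v * a i - u * lam|
      ≤ ∑ i ∈ s, ((u + v) * (θ / 2 * (a i + lam)
          + ((a i - P * (a i + lam)) ^ 2 / (a i + lam)) / (2 * θ))
          + |(u + v) * P - u| * (a i + lam)) := Finset.sum_le_sum key
    _ = _ := by
        rw [Finset.sum_add_distrib, ← Finset.mul_sum, ← Finset.mul_sum, hwsum,
          Finset.sum_add_distrib, ← Finset.mul_sum, hwsum, ← Finset.sum_div, hvar]

lemma titu_range (n : ℕ) (a : ℕ → ℝ) (lam : ℝ) (hlam : 0 < lam) (ha : ∀ i < n, 0 ≤ a i) :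
    (∑ i ∈ Finset.range n, a i) ^ 2 / (∑ i ∈ Finset.range n, a i + n * lam)
      ≤ ∑ i ∈ Finset.range n, a i ^ 2 / (a i + lam) := by
  have h := Finset.sq_sum_div_le_sum_sq_div (Finset.range n) a (g := fun i => a i + lam)
    (by intro i hi; have := ha i (Finset.mem_range.mp hi); linarith)
  rw [Finset.sum_add_distrib, Finset.sum_const, Finset.card_range, nsmul_eq_mul] at h
  exact h

lemma refine_energy (N M : ℕ) (a : ℕ → ℝ) (lam : ℝ) (hlam : 0 < lam)
    (ha : ∀ i < N * M, 0 ≤ a i) :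
    ∑ T ∈ Finset.range N, (∑ y ∈ Finset.range M, a (T * M + y)) ^ 2 /
        (∑ y ∈ Finset.range M, a (T * M + y) + M * lam)
      ≤ ∑ t ∈ Finset.range (N * M), a t ^ 2 / (a t + lam) := by
  rw [sum_range_mul']
  apply Finset.sum_le_sum
  intro T hT
  apply titu_range M (fun y => a (T * M + y)) lam hlam
  intro y hy
  apply ha
  rw [Finset.mem_range] at hT
  calc T * M + y < T * M + M := by omega
    _ = (T + 1) * M := by ring
    _ ≤ N * M := Nat.mul_le_mul_right _ hT


lemma final_ineq (V K u v a l w E Bn lam G card r : ℝ) (hV : 1 ≤ V) (hu : 1 ≤ u)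
    (hv : 1 ≤ v) (hvV : v ≤ V) (hl : 0 < l) (hr : r = a / l) (hr0 : 0 < r) (hrV : r ≤ V)
    (hw : w = a + l) (happ : |v * r - u| ≤ 1 / (V + 1)) (hlam : 1 ≤ lam)
    (hBn : Bn * K * lam = l) (hBn0 : 0 ≤ Bn)
    (hK : 2 * V ^ 2 * (V + 2) ^ 2 ≤ K) (hG : 0 ≤ G)
    (hE : E ≤ (u + v) * ((1 / (V * (V * (V + 2) ^ 2))) / 2 * w +
      G / (2 * (1 / (V * (V * (V + 2) ^ 2))))) + l / (V + 1))
    (hcard : card * v ≤ (u + v) * (2 * E + Bn * ((u + v) * lam) + Bn * v)) :
    card ≤ 6 * w / V + V ^ 3 * (V + 2) ^ 4 * G := by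
  have hv0 : 0 < v := by linarith
  have hV0 : 0 < V := by linarith
  have hKpos : 0 < K := by
    have : 0 < 2 * V ^ 2 * (V + 2) ^ 2 := by positivity
    linarith
  have ha : a = r * l := by rw [hr]; field_simp
  set κ := (u + v) / v with hκ
  have hκv : u + v = κ * v := by rw [hκ]; field_simp
  have hκ1 : 1 ≤ κ := by
    rw [hκ, le_div_iff₀ hv0]; linarith
  have happ' := abs_le.mp happ
  have h1V : 1 / (V + 1) ≤ 1 / 2 := by
    apply one_div_le_one_div_of_le <;> linarith
  have hκr : κ ≤ r + 2 := by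
    rw [hκ, div_le_iff₀ hv0]
    nlinarith [happ'.1]
  have hκV : κ ≤ V + 2 := by linarith
  have hw' : w = (1 + r) * l := by rw [hw, ha]; ring
  have hw0 : 0 < w := by rw [hw']; positivity
  set Γ := V * (V + 2) ^ 2 with hΓ
  have hΓ0 : 0 < Γ := by positivity
  have hκΓ : κ ^ 2 * v ≤ Γ := by
    have h1 : κ ^ 2 ≤ (V + 2) ^ 2 := pow_le_pow_left₀ (by linarith) hκV 2
    calc κ ^ 2 * v ≤ (V + 2) ^ 2 * V := mul_le_mul h1 hvV hv0.le (by positivity)
      _ = Γ := by rw [hΓ]; ring
  -- divide by v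
  have hdiv : card ≤ κ * (2 * E + Bn * ((u + v) * lam) + Bn * v) := by
    have : card * v ≤ (κ * (2 * E + Bn * ((u + v) * lam) + Bn * v)) * v := by
      calc card * v ≤ (u + v) * (2 * E + Bn * ((u + v) * lam) + Bn * v) := hcard
        _ = _ := by rw [hκv]; ring
    exact le_of_mul_le_mul_right this hv0
  have hE' : 2 * E ≤ κ * v * (w / (V * Γ) + V * Γ * G) + 2 * l / (V + 1) := by
    have e1 : (u + v) * ((1 / (V * Γ)) / 2 * w + G / (2 * (1 / (V * Γ)))) * 2
        = κ * v * (w / (V * Γ) + V * Γ * G) := by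
      rw [hκv]
      field_simp
    have e2 : 2 * (l / (V + 1)) = 2 * l / (V + 1) := by ring
    linarith
  have t1 : κ * (κ * v * (w / (V * Γ) + V * Γ * G)) ≤ w / V + V ^ 3 * (V + 2) ^ 4 * G := by
    have e1 : κ * (κ * v * (w / (V * Γ) + V * Γ * G))
        = (κ ^ 2 * v) * (w / (V * Γ) + V * Γ * G) := by ring
    rw [e1]
    calc (κ ^ 2 * v) * (w / (V * Γ) + V * Γ * G)
        ≤ Γ * (w / (V * Γ) + V * Γ * G) := by
          apply mul_le_mul_of_nonneg_right hκΓ
          positivity
      _ = w / V + V * Γ ^ 2 * G := by field_simp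
      _ = _ := by rw [hΓ]; ring
  have t2 : κ * (2 * l / (V + 1)) ≤ 4 * w / V := by
    have h1 : κ * (2 * l / (V + 1)) ≤ (r + 2) * (2 * l / (V + 1)) := by
      apply mul_le_mul_of_nonneg_right hκr
      positivity
    have h2 : (r + 2) * (2 * l / (V + 1)) ≤ 4 * w / (V + 1) := by
      rw [hw', mul_div_assoc', div_le_div_iff_of_pos_right (by positivity)]
      nlinarith
    have h3 : 4 * w / (V + 1) ≤ 4 * w / V := by
      apply div_le_div_of_nonneg_left (by positivity) hV0 (by linarith)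
    linarith
  have t3 : κ * (Bn * ((u + v) * lam) + Bn * v) ≤ w / V := by
    have h1 : κ * (Bn * ((u + v) * lam) + Bn * v) ≤ 2 * (κ ^ 2 * v) * (Bn * lam) := by
      rw [hκv]
      have h2 : Bn * v ≤ κ * v * (Bn * lam) := by
        calc Bn * v = 1 * v * (Bn * 1) := by ring
          _ ≤ κ * v * (Bn * lam) := by
              apply mul_le_mul
              · exact mul_le_mul_of_nonneg_right hκ1 hv0.le
              · exact mul_le_mul_of_nonneg_left hlam hBn0
              · positivity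
              · positivity
      have h3 : 0 ≤ κ := by linarith
      have hp := mul_le_mul_of_nonneg_left h2 h3
      calc κ * (Bn * (κ * v * lam) + Bn * v) = κ ^ 2 * v * (Bn * lam) + κ * (Bn * v) := by ring
        _ ≤ κ ^ 2 * v * (Bn * lam) + κ * (κ * v * (Bn * lam)) := by linarith
        _ = 2 * (κ ^ 2 * v) * (Bn * lam) := by ring
    have h4 : Bn * lam = l / K := by
      rw [← hBn]; field_simp
    have h5 : 2 * (κ ^ 2 * v) * (Bn * lam) ≤ 2 * Γ * (l / K) := by
      rw [h4]
      apply mul_le_mul_of_nonneg_right _ (by positivity)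
      linarith
    have h6 : 2 * Γ * (l / K) ≤ l / V := by
      rw [mul_div_assoc', div_le_div_iff₀ hKpos hV0]
      have : 2 * Γ * V ≤ K := by
        calc 2 * Γ * V = 2 * V ^ 2 * (V + 2) ^ 2 := by rw [hΓ]; ring
          _ ≤ K := hK
      calc 2 * Γ * l * V = l * (2 * Γ * V) := by ring
        _ ≤ l * K := mul_le_mul_of_nonneg_left this hl.le
    have h7 : l / V ≤ w / V := by
      apply div_le_div_of_nonneg_right _ hV0.le
      rw [hw']
      have : 0 ≤ r * l := by positivity
      linarith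
    linarith
  have hfin : card ≤ κ * (2 * E) + κ * (Bn * ((u + v) * lam) + Bn * v) := by
    calc card ≤ _ := hdiv
      _ = _ := by ring
  have hκE : κ * (2 * E) ≤ κ * (κ * v * (w / (V * Γ) + V * Γ * G) + 2 * l / (V + 1)) :=
    mul_le_mul_of_nonneg_left hE' (by linarith)
  have e6 : 6 * w / V = w / V + 4 * w / V + w / V := by ring
  have e7 : κ * (κ * v * (w / (V * Γ) + V * Γ * G) + 2 * l / (V + 1))
      = κ * (κ * v * (w / (V * Γ) + V * Γ * G)) + κ * (2 * l / (V + 1)) := by ring
  rw [e7] at hκE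
  rw [e6]
  linarith


/-- One cycle of digits: either the sums are crowded or the slopes vary. -/
theorem one_cycle {K : ℕ} [hK : Fact K.Prime] (V : ℕ) (hV : 1 ≤ V)
    (hKV : 2 * V ^ 2 * (V + 2) ^ 2 ≤ K) (ps : List (ℕ × ℕ))
    (hps : ∀ u v : ℕ, 1 ≤ u → u ≤ V ^ 2 → 1 ≤ v → v ≤ V → (u, v) ∈ ps)
    (l : ℕ) (hl : 0 < l) (φ : ℕ → ℕ) (hφ : Monotone φ) (q : ℕ → ℕ) (C : Finset (ℕ × ℕ))
    (hC : Chain C) (hb : ∀ c ∈ C, c.2 < K ^ ps.length * l)
    (hphi : ∀ c ∈ C, φ (c.2 / l) ≤ c.1 ∧ c.1 < φ (c.2 / l + 1))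
    (hq : ∀ c ∈ C, q c.2 / l = lab K ps (c.2 / l))
    (hinj : ∀ c ∈ C, ∀ c' ∈ C, c.1 + q c.2 = c'.1 + q c'.2 → c = c') (a w : ℝ)
    (ha : a = (φ (K ^ ps.length) : ℝ) - φ 0) (hw : w = a + ((K ^ ps.length * l : ℕ) : ℝ)) :
    (C.card : ℝ) ≤ 6 * w / V + (V : ℝ) ^ 3 * (V + 2) ^ 4 *
      (∑ t ∈ Finset.range (K ^ ps.length),
        ((φ (t + 1) : ℝ) - φ t) ^ 2 / (((φ (t + 1) : ℝ) - φ t) + l) - a ^ 2 / w) := by
  classical
  have hKpos : 0 < K := hK.out.pos
  set L := K ^ ps.length with hL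
  have hLpos : 0 < L := Nat.pow_pos hKpos
  have hVR : (1 : ℝ) ≤ V := by exact_mod_cast hV
  have hV0 : (0 : ℝ) < V := by linarith
  set ll : ℝ := ((L * l : ℕ) : ℝ) with hll
  have hllpos : 0 < ll := by
    rw [hll]; exact_mod_cast Nat.mul_pos hLpos hl
  have ha0 : 0 ≤ a := by
    have : (φ 0 : ℝ) ≤ φ L := by exact_mod_cast hφ (Nat.zero_le _)
    rw [ha]; linarith
  have hwpos : 0 < w := by rw [hw]; linarith
  have hat : ∀ t, 0 ≤ (φ (t + 1) : ℝ) - φ t := by
    intro t
    have : (φ t : ℝ) ≤ φ (t + 1) := by exact_mod_cast hφ (Nat.le_succ t)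
    linarith
  have hsuma : ∑ t ∈ Finset.range L, ((φ (t + 1) : ℝ) - φ t) = a := by
    rw [ha, Finset.sum_range_sub (fun t => (φ t : ℝ))]
  have hlR : (0 : ℝ) < l := by exact_mod_cast hl
  set G : ℝ := ∑ t ∈ Finset.range L,
        ((φ (t + 1) : ℝ) - φ t) ^ 2 / (((φ (t + 1) : ℝ) - φ t) + l) - a ^ 2 / w with hG
  have hG0 : 0 ≤ G := by
    have := titu_range L (fun t => (φ (t + 1) : ℝ) - φ t) l hlR (fun t _ => hat t)
    rw [hsuma] at this
    have e : a + (L : ℝ) * l = w := by rw [hw, hll]; push_cast; ring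
    rw [e] at this
    rw [hG]; linarith
  have hBG : 0 ≤ (V : ℝ) ^ 3 * (V + 2) ^ 4 * G := by positivity
  -- reds of the chain
  have hred : ∀ c ∈ C, φ 0 ≤ c.1 ∧ c.1 < φ 0 + (φ L - φ 0) := by
    intro c hc
    have h1 := hphi c hc
    have h2 : c.2 / l < L := Nat.div_lt_of_lt_mul (by rw [mul_comm]; exact hb c hc)
    have h3 : φ 0 ≤ φ (c.2 / l) := hφ (Nat.zero_le _)
    have h4 : φ (c.2 / l + 1) ≤ φ L := hφ h2
    have h5 : φ 0 ≤ φ L := hφ (Nat.zero_le _)
    omega
  have hcard_a : (C.card : ℝ) ≤ a := by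
    have h1 := hC.card_le_red (φ 0) (φ L - φ 0) hred
    have h2 : φ 0 ≤ φ L := hφ (Nat.zero_le _)
    rw [ha, ← Nat.cast_sub h2]
    exact_mod_cast h1
  have hcard_l : (C.card : ℝ) ≤ ll := by
    rw [hll]
    exact_mod_cast hC.card_le_blue (L * l) hb
  by_cases hc1 : (V : ℝ) * ll ≤ a
  · have h1 : ll ≤ w / V := by
      rw [le_div_iff₀ hV0, hw]; nlinarith
    have h2 : w / V ≤ 6 * w / V := by
      apply div_le_div_of_nonneg_right _ hV0.le; linarith
    linarith
  by_cases hc2 : (V : ℝ) * a ≤ ll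
  · have h1 : a ≤ w / V := by
      rw [le_div_iff₀ hV0, hw]; nlinarith
    have h2 : w / V ≤ 6 * w / V := by
      apply div_le_div_of_nonneg_right _ hV0.le; linarith
    linarith
  push Not at hc1 hc2
  have hapos : 0 < a := by
    rcases eq_or_lt_of_le ha0 with h | h
    · rw [← h] at hc2; linarith
    · exact h
  set r := a / ll with hr
  have hr0 : 0 < r := by positivity
  have hrV : r < V := by rw [hr, div_lt_iff₀ hllpos]; exact hc1
  have hrV' : 1 < V * r := by
    rw [hr, mul_div_assoc', lt_div_iff₀ hllpos]; linarith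
  obtain ⟨j, k, hk0, hkV, happ⟩ := Real.exists_int_int_abs_mul_sub_le r (n := V) hV
  have hkR : (1 : ℝ) ≤ k := by exact_mod_cast hk0
  have happ' := abs_le.mp happ
  have hj0 : 0 < j := by
    have h1 : (0 : ℝ) < j := by
      have h2 : (1 : ℝ) / (V + 1) < r := by
        rw [div_lt_iff₀ (by linarith)]
        nlinarith
      have h3 : r ≤ k * r := by nlinarith
      linarith [happ'.2]
    exact_mod_cast h1
  have hjV : j ≤ (V : ℤ) ^ 2 := by
    have h1 : (j : ℝ) < (V : ℝ) ^ 2 + 1 := by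
      have h2 : (k : ℝ) * r < V * V := by
        have : (k : ℝ) ≤ V := by exact_mod_cast hkV
        nlinarith
      have h3 : (1 : ℝ) / (V + 1) < 1 := by
        rw [div_lt_one (by linarith)]; linarith
      nlinarith [happ'.1]
    have h2 : j < (V : ℤ) ^ 2 + 1 := by exact_mod_cast h1
    linarith
  obtain ⟨u, rfl⟩ : ∃ u : ℕ, j = u := ⟨j.toNat, by omega⟩
  obtain ⟨v, rfl⟩ : ∃ v : ℕ, k = v := ⟨k.toNat, by omega⟩
  have hu1 : 1 ≤ u := by omega
  have hv1 : 1 ≤ v := by omega
  have huV : u ≤ V ^ 2 := by exact_mod_cast hjV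
  have hvV : v ≤ V := by exact_mod_cast hkV
  have hVK : V < K := by
    have : V < 2 * V ^ 2 * (V + 2) ^ 2 := by
      have h1 : 1 ≤ V ^ 2 := Nat.one_le_pow _ _ hV
      calc V < (V + 2) ^ 2 := by nlinarith
        _ = 1 * (V + 2) ^ 2 := by ring
        _ ≤ 2 * V ^ 2 * (V + 2) ^ 2 := Nat.mul_le_mul_right _ (by omega)
    omega
  have hvK : v < K := by omega
  obtain ⟨Bn, M, Y, hBn, hM, hprod, hY⟩ := lab_struct (K := K) ps (u, v) (hps u v hu1 huV hv1 hvV)
  rw [← hL] at hprod
  set lam := M * l with hlam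
  have hlampos : 0 < lam := Nat.mul_pos hM hl
  -- coarse boundaries
  set ψ : ℕ → ℕ := fun T => φ (T * M) with hψ
  have hdivT : ∀ x : ℕ, x / lam = (x / l) / M := by
    intro x
    rw [hlam, Nat.div_div_eq_div_mul, mul_comm M l]
  have hψ1 : ∀ c ∈ C, ψ (c.2 / lam) ≤ c.1 ∧ c.1 < ψ (c.2 / lam + 1) := by
    intro c hc
    obtain ⟨h1, h2⟩ := hphi c hc
    constructor
    · refine le_trans (hφ ?_) h1
      rw [hdivT]
      exact Nat.div_mul_le_self _ _
    · refine lt_of_lt_of_le h2 (hφ ?_)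
      rw [hdivT]
      have := Nat.lt_div_mul_add hM (a := c.2 / l)
      rw [add_mul, one_mul]
      omega
  have hq' : ∀ c ∈ C, q c.2 / lam = Y ((c.2 / lam) / K) * K + sig K u v ((c.2 / lam) % K) := by
    intro c hc
    have h2 : c.2 / l < L := Nat.div_lt_of_lt_mul (by rw [mul_comm]; exact hb c hc)
    have e : c.2 / l / (K * M) = c.2 / l / M / K := by
      rw [Nat.div_div_eq_div_mul (c.2 / l) M K, mul_comm M K]
    rw [hdivT (q c.2), hq c hc, hY _ h2, hdivT c.2, e]
  have hTlt : ∀ c ∈ C, (c.2 / lam) / K < Bn := by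
    intro c hc
    rw [Nat.div_div_eq_div_mul]
    apply Nat.div_lt_of_lt_mul
    calc c.2 < L * l := hb c hc
      _ = lam * K * Bn := by rw [← hprod, hlam]; ring
  -- bound for each block
  have hblk : ∀ b ∈ Finset.range Bn, ((C.filter (fun c => (c.2 / lam) / K = b)).card : ℤ) * v ≤
      (u + v) * (2 * (∑ τ ∈ Finset.range K,
      |(v : ℤ) * ((ψ (b * K + τ + 1) : ℤ) - ψ (b * K + τ)) - u * lam|) + (u + v) * lam + v) := by
    intro b _
    apply block_bound u v hv1 hvK lam ψ q b (Y b)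
    · intro c hc
      exact (Finset.mem_filter.mp hc).2
    · intro c hc
      exact hψ1 c (Finset.mem_filter.mp hc).1
    · exact hlampos
    · intro c hc
      obtain ⟨hc1, hc2⟩ := Finset.mem_filter.mp hc
      rw [hq' c hc1, hc2]
    · intro c hc c' hc' h
      exact hinj c (Finset.mem_filter.mp hc).1 c' (Finset.mem_filter.mp hc').1 h
  have hcardsum : C.card = ∑ b ∈ Finset.range Bn, (C.filter (fun c => (c.2 / lam) / K = b)).card :=
    Finset.card_eq_sum_card_fiberwise (fun c hc => Finset.mem_coe.mpr (Finset.mem_range.mpr (hTlt c hc)))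
  set E : ℝ := ∑ T ∈ Finset.range (Bn * K),
      |(v : ℝ) * ((ψ (T + 1) : ℝ) - ψ T) - u * lam| with hE
  have hcardv : (C.card : ℝ) * v ≤ ((u : ℝ) + v) * (2 * E + Bn * (((u : ℝ) + v) * lam) + Bn * v) := by
    have h1 : (C.card : ℤ) * v ≤ ∑ b ∈ Finset.range Bn, ((u : ℤ) + v) *
        (2 * (∑ τ ∈ Finset.range K,
        |(v : ℤ) * ((ψ (b * K + τ + 1) : ℤ) - ψ (b * K + τ)) - u * lam|) + (u + v) * lam + v) := by
      rw [hcardsum]
      push_cast
      rw [Finset.sum_mul]
      exact Finset.sum_le_sum hblk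
    have h2 : ((C.card : ℤ) * v : ℤ) ≤ ((u : ℤ) + v) * (2 * (∑ T ∈ Finset.range (Bn * K),
        |(v : ℤ) * ((ψ (T + 1) : ℤ) - ψ T) - u * lam|) + Bn * (((u : ℤ) + v) * lam) + Bn * v) := by
      refine le_trans h1 (le_of_eq ?_)
      rw [← Finset.mul_sum, Finset.sum_add_distrib, Finset.sum_add_distrib, ← Finset.mul_sum,
        sum_range_mul', Finset.sum_const, Finset.sum_const, Finset.card_range]
      simp only [nsmul_eq_mul]
    have h3 : (((C.card : ℤ) * v : ℤ) : ℝ) ≤ ((((u : ℤ) + v) * (2 * (∑ T ∈ Finset.range (Bn * K),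
        |(v : ℤ) * ((ψ (T + 1) : ℤ) - ψ T) - u * lam|) + Bn * (((u : ℤ) + v) * lam) + Bn * v) : ℤ) : ℝ) := by
      exact_mod_cast h2
    push_cast at h3
    rw [hE]
    exact h3
  have hBnK : 0 < Bn * K := Nat.mul_pos hBn hKpos
  have hψt : ∀ T, 0 ≤ (ψ (T + 1) : ℝ) - ψ T := by
    intro T
    have : ψ T ≤ ψ (T + 1) := hφ (Nat.mul_le_mul_right _ (Nat.le_succ T))
    have : (ψ T : ℝ) ≤ ψ (T + 1) := by exact_mod_cast this
    linarith
  have hψsum : ∑ T ∈ Finset.range (Bn * K), ((ψ (T + 1) : ℝ) - ψ T) = a := by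
    have e1 : ψ (Bn * K) = φ L := by
      change φ (Bn * K * M) = φ L
      rw [hprod]
    have e2 : ψ 0 = φ 0 := by
      change φ (0 * M) = φ 0
      rw [zero_mul]
    rw [Finset.sum_range_sub (fun T => (ψ T : ℝ)), ha, e1, e2]
  have hlamR : (0 : ℝ) < lam := by exact_mod_cast hlampos
  have hBKl : ((Bn * K : ℕ) : ℝ) * lam = ll := by
    rw [hll, hlam, ← hprod]; push_cast; ring
  have hEle : E ≤ ((u : ℝ) + v) * ((1 / ((V : ℝ) * (V * (V + 2) ^ 2))) / 2 * w +
      G / (2 * (1 / ((V : ℝ) * (V * (V + 2) ^ 2))))) + ll / (V + 1) := by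
    have h1 := energy_ineq (Finset.range (Bn * K)) (fun T => (ψ (T + 1) : ℝ) - ψ T) lam hlamR
      (fun T _ => hψt T) ⟨0, Finset.mem_range.mpr hBnK⟩ u v (1 / ((V : ℝ) * (V * (V + 2) ^ 2)))
      (by positivity) (by positivity) (by positivity)
    simp only [hψsum, Finset.card_range] at h1
    rw [hBKl, ← hw] at h1
    rw [hE]
    refine le_trans h1 ?_
    have h2 : ∑ T ∈ Finset.range (Bn * K), ((ψ (T + 1) : ℝ) - ψ T) ^ 2 /
        (((ψ (T + 1) : ℝ) - ψ T) + lam) - a ^ 2 / w ≤ G := by
      rw [hG]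
      have h3 := refine_energy (Bn * K) M (fun t => (φ (t + 1) : ℝ) - φ t) l hlR
        (fun t _ => hat t)
      rw [hprod] at h3
      have h4 : ∀ T, ∑ y ∈ Finset.range M, ((φ (T * M + y + 1) : ℝ) - φ (T * M + y))
          = (ψ (T + 1) : ℝ) - ψ T := by
        intro T
        have := Finset.sum_range_sub (fun y => (φ (T * M + y) : ℝ)) M
        simp only [Nat.add_zero] at this
        have e1 : ψ (T + 1) = φ (T * M + M) := by
          change φ ((T + 1) * M) = _
          rw [show (T + 1) * M = T * M + M by ring]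
        have e2 : ψ T = φ (T * M) := rfl
        rw [e1, e2]
        exact this
      simp only [h4] at h3
      have h5 : ((M : ℝ) * l) = lam := by rw [hlam]; push_cast; ring
      rw [h5] at h3
      linarith
    have h6 : |((u : ℝ) + v) * (a / w) - u| * w ≤ ll / (V + 1) := by
      have e1 : (((u : ℝ) + v) * (a / w) - u) * w = ((v : ℝ) * r - u) * ll := by
        rw [hr, hw]
        have : a + ll ≠ 0 := by positivity
        field_simp
        ring
      have e2 : |((u : ℝ) + v) * (a / w) - u| * w = |((v : ℝ) * r - u)| * ll := by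
        rw [← abs_of_pos hwpos, ← abs_mul]
        conv_lhs => rw [abs_of_pos hwpos]
        rw [e1, abs_mul, abs_of_pos hllpos]
      rw [e2]
      calc |((v : ℝ) * r - u)| * ll ≤ 1 / (V + 1) * ll := by
            apply mul_le_mul_of_nonneg_right _ hllpos.le
            exact_mod_cast happ
        _ = ll / (V + 1) := by ring
    have h7 : (0 : ℝ) ≤ (u : ℝ) + v := by positivity
    have h8 : (∑ T ∈ Finset.range (Bn * K), ((ψ (T + 1) : ℝ) - ψ T) ^ 2 /
        (((ψ (T + 1) : ℝ) - ψ T) + lam) - a ^ 2 / w) / (2 * (1 / ((V : ℝ) * (V * (V + 2) ^ 2))))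
        ≤ G / (2 * (1 / ((V : ℝ) * (V * (V + 2) ^ 2)))) := by
      apply div_le_div_of_nonneg_right h2
      positivity
    have h9 := mul_le_mul_of_nonneg_left h8 h7
    linarith
  apply final_ineq V K u v a ll w E Bn lam G C.card r hVR (by exact_mod_cast hu1)
    (by exact_mod_cast hv1) (by exact_mod_cast hvV) hllpos hr hr0 hrV.le hw
    (by exact_mod_cast happ) (by exact_mod_cast hlampos) ?_ (by positivity)
    (by exact_mod_cast hKV) hG0 hEle hcardv
  rw [← hBKl]; push_cast; ring


theorem tower_bound {K : ℕ} [hK : Fact K.Prime] (V : ℕ) (hV : 1 ≤ V)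
    (hKV : 2 * V ^ 2 * (V + 2) ^ 2 ≤ K) (ps : List (ℕ × ℕ))
    (hps : ∀ u v : ℕ, 1 ≤ u → u ≤ V ^ 2 → 1 ≤ v → v ≤ V → (u, v) ∈ ps) :
    ∀ (R : ℕ) (α a : ℕ) (C : Finset (ℕ × ℕ)), Chain C →
      (∀ c ∈ C, α ≤ c.1 ∧ c.1 < α + a) →
      (∀ c ∈ C, c.2 < (K ^ ps.length) ^ R) →
      (∀ c ∈ C, ∀ c' ∈ C, c.1 + tower (lab K ps) (K ^ ps.length) R c.2
        = c'.1 + tower (lab K ps) (K ^ ps.length) R c'.2 → c = c') →
      (R : ℝ) * C.card ≤ 6 * R * ((a : ℝ) + ((K ^ ps.length) ^ R : ℕ)) / V +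
        (V : ℝ) ^ 3 * (V + 2) ^ 4 * (((a : ℝ) + ((K ^ ps.length) ^ R : ℕ)) -
          (a : ℝ) ^ 2 / ((a : ℝ) + ((K ^ ps.length) ^ R : ℕ))) := by
  classical
  have hKpos : 0 < K := hK.out.pos
  set L := K ^ ps.length with hL
  have hLpos : 0 < L := Nat.pow_pos hKpos
  have hVR : (1 : ℝ) ≤ V := by exact_mod_cast hV
  have hV0 : (0 : ℝ) < V := by linarith
  intro R
  induction R with
  | zero =>
    intro α a C hC hr hb hinj
    simp only [pow_zero, Nat.cast_one, Nat.cast_zero, zero_mul, mul_zero, zero_div, zero_add]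
    have ha : (0 : ℝ) ≤ a := by positivity
    have h1 : (a : ℝ) ^ 2 / (a + 1) ≤ a + 1 := by
      rw [div_le_iff₀ (by positivity)]
      nlinarith
    have h2 : 0 ≤ (a : ℝ) + 1 - (a : ℝ) ^ 2 / (a + 1) := by linarith
    positivity
  | succ R ih =>
    intro α a C hC hr hb hinj
    set l := L ^ R with hl
    have hlpos : 0 < l := Nat.pow_pos hLpos
    have hLR : L ^ (R + 1) = L * l := by rw [pow_succ, hl]; ring
    rw [hLR] at hb ⊢
    obtain ⟨φ, hφ, hφ0, hφL, hphi⟩ := exists_phi C hC α a l hlpos hr L hLpos hb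
    set q : ℕ → ℕ := tower (lab K ps) L (R + 1) with hq
    have hqdef : ∀ j, q j = lab K ps (j / l) * l + tower (lab K ps) L R (j % l) := fun j => rfl
    have htlt : ∀ j, tower (lab K ps) L R j < l := tower_lt (lab K ps) L hLpos (lab_lt ps) R
    have hq1 : ∀ j, q j / l = lab K ps (j / l) := by
      intro j
      rw [hqdef, Nat.add_comm, Nat.add_mul_div_right _ _ hlpos, Nat.div_eq_of_lt (htlt _), zero_add]
    set w : ℝ := (a : ℝ) + ((L * l : ℕ) : ℝ) with hw
    have hwpos : 0 < w := by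
      have : 0 < L * l := Nat.mul_pos hLpos hlpos
      have : (0 : ℝ) < ((L * l : ℕ) : ℝ) := by exact_mod_cast this
      positivity
    have haφ : (a : ℝ) = (φ L : ℝ) - φ 0 := by
      rw [hφL, hφ0]; push_cast; ring
    have h1 := one_cycle V hV hKV ps hps l hlpos φ hφ q C hC hb hphi (fun c _ => hq1 c.2)
      hinj (a : ℝ) w haφ hw
    rw [← hL] at h1
    -- sub-chains
    have h2 : ∀ t ∈ Finset.range L, (R : ℝ) * (C.filter (fun c => c.2 / l = t)).card ≤
        6 * R * (((φ (t + 1) : ℝ) - φ t) + l) / V + (V : ℝ) ^ 3 * (V + 2) ^ 4 *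
          ((((φ (t + 1) : ℝ) - φ t) + l) - ((φ (t + 1) : ℝ) - φ t) ^ 2 /
            (((φ (t + 1) : ℝ) - φ t) + l)) := by
      intro t _
      set D := (C.filter (fun c => c.2 / l = t)).image (fun c => (c.1, c.2 % l)) with hD
      have hDinj : Set.InjOn (fun c : ℕ × ℕ => (c.1, c.2 % l))
          (C.filter (fun c => c.2 / l = t) : Set (ℕ × ℕ)) := by
        intro c hc c' hc' hcc
        simp only [Finset.coe_filter, Set.mem_ofPred_eq] at hc hc'
        simp only [Prod.mk.injEq] at hcc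
        have e1 := Nat.div_add_mod c.2 l
        have e2 := Nat.div_add_mod c'.2 l
        rw [hc.2, hcc.2] at e1
        rw [hc'.2] at e2
        exact Prod.ext hcc.1 (e1.symm.trans e2)
      have hDcard : D.card = (C.filter (fun c => c.2 / l = t)).card :=
        Finset.card_image_of_injOn hDinj
      have hφt : φ t ≤ φ (t + 1) := hφ (Nat.le_succ t)
      have hDC : Chain D := by
        intro d hd d' hd' hne
        rw [hD, Finset.mem_image] at hd hd'
        obtain ⟨c, hc, rfl⟩ := hd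
        obtain ⟨c', hc', rfl⟩ := hd'
        rw [Finset.mem_filter] at hc hc'
        have hne' : c ≠ c' := by rintro rfl; exact hne rfl
        have e1 := Nat.div_add_mod c.2 l
        have e2 := Nat.div_add_mod c'.2 l
        rw [hc.2] at e1
        rw [hc'.2] at e2
        rcases hC c hc.1 c' hc'.1 hne' with h | h
        · left; exact ⟨h.1, by simp only; omega⟩
        · right; exact ⟨h.1, by simp only; omega⟩
      have h3 := ih (φ t) (φ (t + 1) - φ t) D hDC
        (by
          intro d hd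
          rw [hD, Finset.mem_image] at hd
          obtain ⟨c, hc, rfl⟩ := hd
          rw [Finset.mem_filter] at hc
          have := hphi c hc.1
          rw [hc.2] at this
          simp only
          omega)
        (by
          intro d hd
          rw [hD, Finset.mem_image] at hd
          obtain ⟨c, hc, rfl⟩ := hd
          exact Nat.mod_lt _ hlpos)
        (by
          intro d hd d' hd' heq
          rw [hD, Finset.mem_image] at hd hd'
          obtain ⟨c, hc, rfl⟩ := hd
          obtain ⟨c', hc', rfl⟩ := hd'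
          rw [Finset.mem_filter] at hc hc'
          simp only at heq
          have : c.1 + q c.2 = c'.1 + q c'.2 := by
            rw [hqdef, hqdef, hc.2, hc'.2]
            omega
          rw [hinj c hc.1 c' hc'.1 this])
      rw [hDcard, Nat.cast_sub hφt] at h3
      exact h3
    have hcard : (C.card : ℝ) = ∑ t ∈ Finset.range L,
        ((C.filter (fun c => c.2 / l = t)).card : ℝ) := by
      have : C.card = ∑ t ∈ Finset.range L, (C.filter (fun c => c.2 / l = t)).card :=
        Finset.card_eq_sum_card_fiberwise (fun c hc => Finset.mem_coe.mpr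
          (Finset.mem_range.mpr (Nat.div_lt_of_lt_mul (by rw [mul_comm]; exact hb c hc))))
      exact_mod_cast this
    have hsuma : ∑ t ∈ Finset.range L, ((φ (t + 1) : ℝ) - φ t) = a := by
      rw [haφ, Finset.sum_range_sub (fun t => (φ t : ℝ))]
    have hsumw : ∑ t ∈ Finset.range L, (((φ (t + 1) : ℝ) - φ t) + l) = w := by
      rw [Finset.sum_add_distrib, hsuma, Finset.sum_const, Finset.card_range, nsmul_eq_mul, hw]
      push_cast; ring
    have h4 : (R : ℝ) * C.card ≤ 6 * R * w / V + (V : ℝ) ^ 3 * (V + 2) ^ 4 *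
        (w - ∑ t ∈ Finset.range L, ((φ (t + 1) : ℝ) - φ t) ^ 2 /
            (((φ (t + 1) : ℝ) - φ t) + l)) := by
      rw [hcard, Finset.mul_sum]
      refine le_trans (Finset.sum_le_sum h2) (le_of_eq ?_)
      rw [Finset.sum_add_distrib, ← Finset.sum_div, ← Finset.mul_sum, ← Finset.mul_sum,
        Finset.sum_sub_distrib, hsumw]
    push_cast at h1 h4 ⊢
    have e : 6 * ((R : ℝ) + 1) * w / V = 6 * R * w / V + 6 * w / V := by ring
    rw [e]
    linarith

/-- final form of the tower bound -/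
theorem tower_bound' {K : ℕ} [hK : Fact K.Prime] (V : ℕ) (hV : 1 ≤ V)
    (hKV : 2 * V ^ 2 * (V + 2) ^ 2 ≤ K) (ps : List (ℕ × ℕ))
    (hps : ∀ u v : ℕ, 1 ≤ u → u ≤ V ^ 2 → 1 ≤ v → v ≤ V → (u, v) ∈ ps)
    (α a : ℕ) (C : Finset (ℕ × ℕ)) (hC : Chain C)
    (hr : ∀ c ∈ C, α ≤ c.1 ∧ c.1 < α + a)
    (hb : ∀ c ∈ C, c.2 < (K ^ ps.length) ^ (V ^ 4 * (V + 2) ^ 4))
    (hinj : ∀ c ∈ C, ∀ c' ∈ C,
      c.1 + tower (lab K ps) (K ^ ps.length) (V ^ 4 * (V + 2) ^ 4) c.2
        = c'.1 + tower (lab K ps) (K ^ ps.length) (V ^ 4 * (V + 2) ^ 4) c'.2 → c = c') :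
    (C.card : ℝ) ≤ 7 * ((a : ℝ) + ((K ^ ps.length) ^ (V ^ 4 * (V + 2) ^ 4) : ℕ)) / V := by
  have h := tower_bound V hV hKV ps hps (V ^ 4 * (V + 2) ^ 4) α a C hC hr hb hinj
  have hVR : (1 : ℝ) ≤ V := by exact_mod_cast hV
  have hV0 : (0 : ℝ) < V := by linarith
  set w : ℝ := (a : ℝ) + ((K ^ ps.length) ^ (V ^ 4 * (V + 2) ^ 4) : ℕ) with hw
  have hw0 : 0 ≤ w := by positivity
  have h1 : 0 ≤ (a : ℝ) ^ 2 / w := by positivity
  have h2 : (V : ℝ) ^ 3 * (V + 2) ^ 4 * (w - (a : ℝ) ^ 2 / w) ≤
      (V : ℝ) ^ 3 * (V + 2) ^ 4 * w := by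
    apply mul_le_mul_of_nonneg_left _ (by positivity)
    linarith
  set R : ℝ := (V : ℝ) ^ 4 * (V + 2) ^ 4 with hR
  have hR0 : 0 < R := by positivity
  have e1 : ((V ^ 4 * (V + 2) ^ 4 : ℕ) : ℝ) = R := by rw [hR]; push_cast; ring
  rw [e1] at h
  have e2 : (V : ℝ) ^ 3 * (V + 2) ^ 4 * w = R * (w / V) := by
    rw [hR]; field_simp
  have h3 : R * (C.card : ℝ) ≤ R * (7 * w / V) := by
    have e3 : R * (7 * w / V) = 6 * R * w / V + R * (w / V) := by ring
    rw [e3, ← e2]
    linarith
  exact le_of_mul_le_mul_left h3 hR0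


/-- list of all the digit patterns of one cycle -/
noncomputable def cyc (V : ℕ) : List (ℕ × ℕ) :=
  ((Finset.Icc 1 (V ^ 2)) ×ˢ (Finset.Icc 1 V)).toList

lemma cyc_length (V : ℕ) : (cyc V).length = V ^ 3 := by
  unfold cyc
  rw [Finset.length_toList, Finset.card_product, Nat.card_Icc, Nat.card_Icc]
  simp only [Nat.add_sub_cancel]
  ring

lemma mem_cyc (V u v : ℕ) : (u, v) ∈ cyc V ↔ (1 ≤ u ∧ u ≤ V ^ 2) ∧ (1 ≤ v ∧ v ≤ V) := by
  unfold cyc
  rw [Finset.mem_toList, Finset.mem_product, Finset.mem_Icc, Finset.mem_Icc]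

/-- size of the hierarchical block -/
def bsize (K V : ℕ) : ℕ := (K ^ (V ^ 3)) ^ (V ^ 4 * (V + 2) ^ 4)

/-- labels inside one hierarchical block -/
noncomputable def hlab (K V : ℕ) (j : ℕ) : ℕ :=
  tower (lab K (cyc V)) (K ^ (V ^ 3)) (V ^ 4 * (V + 2) ^ 4) j

/-- labels of the `n` blue points -/
noncomputable def glab (K V n j : ℕ) : ℕ :=
  if j < n / bsize K V * bsize K V then
    j / bsize K V * bsize K V + hlab K V (j % bsize K V)
  else j

section
variable {K : ℕ} [hK : Fact K.Prime]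

lemma bsize_pos (V : ℕ) : 0 < bsize K V := by
  unfold bsize
  exact Nat.pow_pos (Nat.pow_pos hK.out.pos)

lemma hlab_lt (V j : ℕ) : hlab K V j < bsize K V := by
  unfold hlab bsize
  have h := lab_lt (K := K) (cyc V)
  rw [cyc_length] at h
  exact tower_lt _ _ (Nat.pow_pos hK.out.pos) h _ _

lemma hlab_inj (V : ℕ) (hV : 1 ≤ V) (hVK : V ^ 2 < K) : ∀ j < bsize K V, ∀ j' < bsize K V,
    hlab K V j = hlab K V j' → j = j' := by
  unfold hlab bsize
  have h := lab_lt (K := K) (cyc V)
  have h2 := lab_inj (K := K) (cyc V) (by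
    rintro ⟨u, v⟩ hx
    rw [mem_cyc] at hx
    obtain ⟨⟨h1, h2⟩, h3, h4⟩ := hx
    have : V ≤ V ^ 2 := by nlinarith
    exact ⟨h1, by simp only; omega, h3, by simp only; omega⟩)
  rw [cyc_length] at h h2
  exact tower_inj _ _ (Nat.pow_pos hK.out.pos) h h2 _

lemma glab_lt (V n j : ℕ) (hj : j < n) : glab K V n j < n := by
  unfold glab
  split_ifs with h
  · have hpos := bsize_pos (K := K) V
    have h1 : j / bsize K V < n / bsize K V := Nat.div_lt_of_lt_mul (by rw [mul_comm]; exact h)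
    have h2 := hlab_lt (K := K) V (j % bsize K V)
    calc _ < j / bsize K V * bsize K V + bsize K V := by omega
      _ = (j / bsize K V + 1) * bsize K V := by ring
      _ ≤ n / bsize K V * bsize K V := Nat.mul_le_mul_right _ h1
      _ ≤ n := Nat.div_mul_le_self _ _
  · exact hj

lemma glab_lt_of (V n j : ℕ) (h : j < n / bsize K V * bsize K V) :
    glab K V n j < n / bsize K V * bsize K V := by
  unfold glab
  rw [if_pos h]
  have h1 : j / bsize K V < n / bsize K V := Nat.div_lt_of_lt_mul (by rw [mul_comm]; exact h)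
  have h2 := hlab_lt (K := K) V (j % bsize K V)
  calc _ < j / bsize K V * bsize K V + bsize K V := by omega
    _ = (j / bsize K V + 1) * bsize K V := by ring
    _ ≤ n / bsize K V * bsize K V := Nat.mul_le_mul_right _ h1

lemma glab_inj (V n : ℕ) (hV : 1 ≤ V) (hVK : V ^ 2 < K) : ∀ j < n, ∀ j' < n,
    glab K V n j = glab K V n j' → j = j' := by
  intro j hj j' hj' h
  have hpos := bsize_pos (K := K) V
  by_cases h1 : j < n / bsize K V * bsize K V <;> by_cases h2 : j' < n / bsize K V * bsize K V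
  · unfold glab at h
    rw [if_pos h1, if_pos h2] at h
    obtain ⟨h3, h4⟩ := div_mod_unique (hlab_lt V _) (hlab_lt V _) h
    have h5 := hlab_inj V hV hVK _ (Nat.mod_lt _ hpos) _ (Nat.mod_lt _ hpos) h4
    rw [← Nat.div_add_mod j (bsize K V), ← Nat.div_add_mod j' (bsize K V), h3, h5]
  · have h3 := glab_lt_of (K := K) V n j h1
    have h4 : glab K V n j' = j' := by unfold glab; rw [if_neg h2]
    omega
  · have h3 := glab_lt_of (K := K) V n j' h2
    have h4 : glab K V n j = j := by unfold glab; rw [if_neg h1]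
    omega
  · unfold glab at h
    rw [if_neg h1, if_neg h2] at h
    exact h

theorem glab_bound (V n : ℕ) (hV : 1 ≤ V) (hKV : 2 * V ^ 2 * (V + 2) ^ 2 ≤ K)
    (α a : ℕ) (C : Finset (ℕ × ℕ)) (hC : Chain C)
    (hr : ∀ c ∈ C, α ≤ c.1 ∧ c.1 < α + a) (hb : ∀ c ∈ C, c.2 < n)
    (hinj : ∀ c ∈ C, ∀ c' ∈ C, c.1 + glab K V n c.2 = c'.1 + glab K V n c'.2 → c = c') :
    (C.card : ℝ) ≤ 7 * ((a : ℝ) + n) / V + bsize K V := by
  classical
  have hpos := bsize_pos (K := K) V
  set l := bsize K V with hl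
  set N := n / l with hN
  have hVR : (1 : ℝ) ≤ V := by exact_mod_cast hV
  have hV0 : (0 : ℝ) < V := by linarith
  set C1 := C.filter (fun c => c.2 < N * l) with hC1
  set C2 := C.filter (fun c => ¬ c.2 < N * l) with hC2
  have hcard : C.card = C1.card + C2.card := (Finset.card_filter_add_card_filter_not _).symm
  have hc2 : C2.card ≤ l := by
    have h1 : C2.card = (C2.image (fun c => (c.1, c.2 - N * l))).card := by
      symm
      apply Finset.card_image_of_injOn
      intro c hc c' hc' hcc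
      rw [Finset.mem_coe, hC2, Finset.mem_filter] at hc hc'
      simp only [Prod.mk.injEq] at hcc
      exact Prod.ext hcc.1 (by omega)
    rw [h1]
    apply Chain.card_le_blue
    · intro d hd d' hd' hne
      rw [Finset.mem_image] at hd hd'
      obtain ⟨c, hc, rfl⟩ := hd
      obtain ⟨c', hc', rfl⟩ := hd'
      rw [hC2, Finset.mem_filter] at hc hc'
      have hne' : c ≠ c' := by rintro rfl; exact hne rfl
      rcases hC c hc.1 c' hc'.1 hne' with h | h
      · left; exact ⟨h.1, by simp only; omega⟩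
      · right; exact ⟨h.1, by simp only; omega⟩
    · intro d hd
      rw [Finset.mem_image] at hd
      obtain ⟨c, hc, rfl⟩ := hd
      rw [hC2, Finset.mem_filter] at hc
      have h2 := hb c hc.1
      have h3 : n < N * l + l := by
        have := Nat.lt_div_mul_add hpos (a := n)
        exact this
      simp only
      omega
  have hc1 : (C1.card : ℝ) ≤ 7 * ((a : ℝ) + n) / V := by
    rcases Nat.eq_zero_or_pos N with h0 | hNpos
    · have : C1 = ∅ := by
        rw [hC1, h0]
        apply Finset.filter_eq_empty_iff.mpr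
        intro c _
        simp
      rw [this]
      simp only [Finset.card_empty, Nat.cast_zero]
      positivity
    have hC1C : Chain C1 := hC.subset (Finset.filter_subset _ _)
    have hr1 : ∀ c ∈ C1, α ≤ c.1 ∧ c.1 < α + a := fun c hc => hr c (Finset.mem_filter.mp hc).1
    have hb1 : ∀ c ∈ C1, c.2 < N * l := fun c hc => (Finset.mem_filter.mp hc).2
    obtain ⟨φ, hφ, hφ0, hφL, hphi⟩ := exists_phi C1 hC1C α a l hpos hr1 N hNpos hb1
    have h2 : ∀ t ∈ Finset.range N, ((C1.filter (fun c => c.2 / l = t)).card : ℝ) ≤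
        7 * (((φ (t + 1) : ℝ) - φ t) + l) / V := by
      intro t _
      set D := (C1.filter (fun c => c.2 / l = t)).image (fun c => (c.1, c.2 % l)) with hD
      have hDinj : Set.InjOn (fun c : ℕ × ℕ => (c.1, c.2 % l))
          (C1.filter (fun c => c.2 / l = t) : Set (ℕ × ℕ)) := by
        intro c hc c' hc' hcc
        rw [Finset.mem_coe, Finset.mem_filter] at hc hc'
        simp only [Prod.mk.injEq] at hcc
        have e1 := Nat.div_add_mod c.2 l
        have e2 := Nat.div_add_mod c'.2 l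
        rw [hc.2, hcc.2] at e1
        rw [hc'.2] at e2
        exact Prod.ext hcc.1 (e1.symm.trans e2)
      have hDcard : D.card = (C1.filter (fun c => c.2 / l = t)).card :=
        Finset.card_image_of_injOn hDinj
      have hφt : φ t ≤ φ (t + 1) := hφ (Nat.le_succ t)
      have hDC : Chain D := by
        intro d hd d' hd' hne
        rw [hD, Finset.mem_image] at hd hd'
        obtain ⟨c, hc, rfl⟩ := hd
        obtain ⟨c', hc', rfl⟩ := hd'
        rw [Finset.mem_filter] at hc hc'
        have hne' : c ≠ c' := by rintro rfl; exact hne rfl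
        have e1 := Nat.div_add_mod c.2 l
        have e2 := Nat.div_add_mod c'.2 l
        rw [hc.2] at e1
        rw [hc'.2] at e2
        rcases hC1C c hc.1 c' hc'.1 hne' with h | h
        · left; exact ⟨h.1, by simp only; omega⟩
        · right; exact ⟨h.1, by simp only; omega⟩
      have h3 := tower_bound' V hV hKV (cyc V)
        (fun u v h1 h2 h3 h4 => (mem_cyc V u v).mpr ⟨⟨h1, h2⟩, h3, h4⟩)
        (φ t) (φ (t + 1) - φ t) D hDC
        (by
          intro d hd
          rw [hD, Finset.mem_image] at hd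
          obtain ⟨c, hc, rfl⟩ := hd
          rw [Finset.mem_filter] at hc
          have := hphi c hc.1
          rw [hc.2] at this
          simp only
          omega)
        (by
          intro d hd
          rw [hD, Finset.mem_image] at hd
          obtain ⟨c, hc, rfl⟩ := hd
          rw [cyc_length]
          exact Nat.mod_lt _ hpos)
        (by
          intro d hd d' hd' heq
          rw [hD, Finset.mem_image] at hd hd'
          obtain ⟨c, hc, rfl⟩ := hd
          obtain ⟨c', hc', rfl⟩ := hd'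
          rw [Finset.mem_filter] at hc hc'
          rw [cyc_length] at heq
          change c.1 + hlab K V (c.2 % l) = c'.1 + hlab K V (c'.2 % l) at heq
          have hcC := (Finset.mem_filter.mp hc.1)
          have hcC' := (Finset.mem_filter.mp hc'.1)
          have e1 : glab K V n c.2 = t * l + hlab K V (c.2 % l) := by
            unfold glab
            rw [if_pos hcC.2, ← hl, hc.2]
          have e2 : glab K V n c'.2 = t * l + hlab K V (c'.2 % l) := by
            unfold glab
            rw [if_pos hcC'.2, ← hl, hc'.2]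
          have : c.1 + glab K V n c.2 = c'.1 + glab K V n c'.2 := by
            rw [e1, e2]; omega
          rw [hinj c hcC.1 c' hcC'.1 this])
      rw [hDcard, Nat.cast_sub hφt, cyc_length] at h3
      exact h3
    have hcs : (C1.card : ℝ) = ∑ t ∈ Finset.range N,
        ((C1.filter (fun c => c.2 / l = t)).card : ℝ) := by
      have : C1.card = ∑ t ∈ Finset.range N, (C1.filter (fun c => c.2 / l = t)).card :=
        Finset.card_eq_sum_card_fiberwise (fun c hc => Finset.mem_coe.mpr
          (Finset.mem_range.mpr (Nat.div_lt_of_lt_mul (by rw [mul_comm]; exact hb1 c hc))))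
      exact_mod_cast this
    have hsuma : ∑ t ∈ Finset.range N, ((φ (t + 1) : ℝ) - φ t) = a := by
      rw [Finset.sum_range_sub (fun t => (φ t : ℝ)), hφL, hφ0]; push_cast; ring
    have hsumw : ∑ t ∈ Finset.range N, (((φ (t + 1) : ℝ) - φ t) + l) = a + N * l := by
      rw [Finset.sum_add_distrib, hsuma, Finset.sum_const, Finset.card_range, nsmul_eq_mul]
    rw [hcs]
    refine le_trans (Finset.sum_le_sum h2) ?_
    rw [← Finset.sum_div, ← Finset.mul_sum, hsumw]
    apply div_le_div_of_nonneg_right _ hV0.le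
    have : (N : ℝ) * l ≤ n := by exact_mod_cast Nat.div_mul_le_self n l
    linarith
  have hc2' : (C2.card : ℝ) ≤ l := by exact_mod_cast hc2
  rw [hcard]
  push_cast
  linarith

end

end Pool.Agent.Helper208.Harmonic
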