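import Mathlib

/-!
Definitions: separated bicoloured point sets in convex position, labels, plane harmonic alternating
paths, and the guaranteed length `f n s`.
-/

set_option autoImplicit false

namespace Pool.Agent.Helper208.Harmonic

/-- twice the signed area of the triangle `a b c` -/
def orient (a b c : ℝ × ℝ) : ℝ :=
  (b.1 - a.1) * (c.2 - a.2) - (b.2 - a.2) * (c.1 - a.1)

/-- `2n` distinct points `pt 0, ..., pt (2n-1)` that are, in this cyclic order, the vertices of a
convex polygon (all triples taken in this order have the same orientation). The first `n` of them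
are red and the last `n` are blue (so a line separates the two colour classes). The blue points
carry an arbitrary permutation of the labels `0, ..., n-1`. -/
structure Config (n : ℕ) where
  pt : Fin (2 * n) → ℝ × ℝ
  inj : Function.Injective pt
  convex : (∀ i j k, i < j → j < k → 0 < orient (pt i) (pt j) (pt k)) ∨
    (∀ i j k, i < j → j < k → orient (pt i) (pt j) (pt k) < 0)
  blueLabel : Equiv.Perm (Fin n)

/-- the first `n` points are red -/
def IsRed {n : ℕ} (x : Fin (2 * n)) : Prop := x.val < n

/-- The label of a point: the red points carry, in their order along the hull, the labels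
`s, s+1, ..., n-1, 0, ..., s-1` (so `0, 1, ..., n-1` if `s = 0`). -/
def Config.label {n : ℕ} (P : Config n) (s : ℕ) (x : Fin (2 * n)) : ℕ :=
  if h : x.val < n then (x.val + s) % n
  else (P.blueLabel ⟨x.val - n, by have := x.isLt; omega⟩).val

/-- `v 0, v 1, ..., v l` is a plane harmonic alternating path with `l` edges. -/
structure IsPath {n : ℕ} (P : Config n) (s l : ℕ) (v : ℕ → Fin (2 * n)) : Prop where
  simple : ∀ a ≤ l, ∀ b ≤ l, v a = v b → a = b
  alternating : ∀ a < l, (IsRed (v a) ↔ ¬ IsRed (v (a + 1)))
  plane : ∀ a < l, ∀ b < l, a ≠ b →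
    ∀ z ∈ segment ℝ (P.pt (v a)) (P.pt (v (a + 1))) ∩ segment ℝ (P.pt (v b)) (P.pt (v (b + 1))),
      (z = P.pt (v a) ∨ z = P.pt (v (a + 1))) ∧ (z = P.pt (v b) ∨ z = P.pt (v (b + 1)))
  harmonic : ∀ a < l, ∀ b < l, a ≠ b →
    P.label s (v a) + P.label s (v (a + 1)) ≠ P.label s (v b) + P.label s (v (b + 1))

/-- the largest number of edges of a plane harmonic alternating path -/
noncomputable def Config.maxPath {n : ℕ} (P : Config n) (s : ℕ) : ℕ :=
  sSup {l | ∃ v : ℕ → Fin (2 * n), IsPath P s l v}

/-- the number of edges guaranteed in every configuration -/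
noncomputable def f (n s : ℕ) : ℕ := sInf (Set.range fun P : Config n => P.maxPath s)

end Pool.Agent.Helper208.Harmonic
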