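import Pool.Agent.Helper208.Harmonic.Defs
import Pool.Agent.Helper208.Harmonic.CombLower

/-!
Chords of convex polygons, and the lower bound for plane harmonic alternating paths.
-/

set_option autoImplicit false

namespace Pool.Agent.Helper208.Harmonic

lemma nested {n : ℕ} (pt : Fin (2 * n) → ℝ × ℝ) (ε : ℝ)
    (hε : ∀ i j k, i < j → j < k → 0 < ε * orient (pt i) (pt j) (pt k))
    (x x' y' y : Fin (2 * n)) (h1 : x < x') (h2 : x' < y') (h3 : y' < y) (z : ℝ × ℝ)
    (hz : z ∈ segment ℝ (pt x) (pt y)) (hz' : z ∈ segment ℝ (pt x') (pt y')) : False := by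
  rw [segment_eq_image] at hz hz'
  obtain ⟨t, ⟨ht0, ht1⟩, rfl⟩ := hz
  obtain ⟨t', ⟨ht0', ht1'⟩, he⟩ := hz'
  have a := hε x x' y h1 (h2.trans h3)
  have b := hε x y' y (h1.trans h2) h3
  have e1 := congrArg Prod.fst he
  have e2 := congrArg Prod.snd he
  simp only [Prod.fst_add, Prod.smul_fst, smul_eq_mul, Prod.snd_add, Prod.smul_snd] at e1 e2
  unfold orient at a b
  have key : (1 - t') * (ε * (((pt x').1 - (pt x).1) * ((pt y).2 - (pt x).2) -
      ((pt x').2 - (pt x).2) * ((pt y).1 - (pt x).1))) +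
      t' * (ε * (((pt y').1 - (pt x).1) * ((pt y).2 - (pt x).2) -
      ((pt y').2 - (pt x).2) * ((pt y).1 - (pt x).1))) = 0 := by
    have : (1 - t') * (ε * (((pt x').1 - (pt x).1) * ((pt y).2 - (pt x).2) -
      ((pt x').2 - (pt x).2) * ((pt y).1 - (pt x).1))) +
      t' * (ε * (((pt y').1 - (pt x).1) * ((pt y).2 - (pt x).2) -
      ((pt y').2 - (pt x).2) * ((pt y).1 - (pt x).1)))
      = ε * ((((1 - t') * (pt x').1 + t' * (pt y').1) - (pt x).1) * ((pt y).2 - (pt x).2) -
        (((1 - t') * (pt x').2 + t' * (pt y').2) - (pt x).2) * ((pt y).1 - (pt x).1)) := by ring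
    rw [this, e1, e2]
    ring
  rcases eq_or_lt_of_le ht0' with h | h
  · rw [← h] at key
    nlinarith
  · have : 0 ≤ (1 - t') * (ε * (((pt x').1 - (pt x).1) * ((pt y).2 - (pt x).2) -
      ((pt x').2 - (pt x).2) * ((pt y).1 - (pt x).1))) := mul_nonneg (by linarith) a.le
    have : 0 < t' * (ε * (((pt y').1 - (pt x).1) * ((pt y).2 - (pt x).2) -
      ((pt y').2 - (pt x).2) * ((pt y).1 - (pt x).1))) := mul_pos h b
    linarith

lemma share_left {n : ℕ} (pt : Fin (2 * n) → ℝ × ℝ) (ε : ℝ)
    (hε : ∀ i j k, i < j → j < k → 0 < ε * orient (pt i) (pt j) (pt k))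
    (x y' y : Fin (2 * n)) (h2 : x < y') (h3 : y' < y) (z : ℝ × ℝ)
    (hz : z ∈ segment ℝ (pt x) (pt y)) (hz' : z ∈ segment ℝ (pt x) (pt y')) : z = pt x := by
  rw [segment_eq_image] at hz hz'
  obtain ⟨t, ⟨ht0, ht1⟩, rfl⟩ := hz
  obtain ⟨t', ⟨ht0', ht1'⟩, he⟩ := hz'
  have b := hε x y' y h2 h3
  have e1 := congrArg Prod.fst he
  have e2 := congrArg Prod.snd he
  simp only [Prod.fst_add, Prod.smul_fst, smul_eq_mul, Prod.snd_add, Prod.smul_snd] at e1 e2
  unfold orient at b
  have key : t' * (ε * (((pt y').1 - (pt x).1) * ((pt y).2 - (pt x).2) -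
      ((pt y').2 - (pt x).2) * ((pt y).1 - (pt x).1))) = 0 := by
    have : t' * (ε * (((pt y').1 - (pt x).1) * ((pt y).2 - (pt x).2) -
      ((pt y').2 - (pt x).2) * ((pt y).1 - (pt x).1)))
      = ε * ((((1 - t') * (pt x).1 + t' * (pt y').1) - (pt x).1) * ((pt y).2 - (pt x).2) -
        (((1 - t') * (pt x).2 + t' * (pt y').2) - (pt x).2) * ((pt y).1 - (pt x).1)) := by ring
    rw [this, e1, e2]
    ring
  have ht : t' = 0 := by
    rcases mul_eq_zero.mp key with h | h
    · exact h
    · exact absurd h b.ne'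
  rw [← he, ht]
  simp

lemma share_right {n : ℕ} (pt : Fin (2 * n) → ℝ × ℝ) (ε : ℝ)
    (hε : ∀ i j k, i < j → j < k → 0 < ε * orient (pt i) (pt j) (pt k))
    (x x' y : Fin (2 * n)) (h2 : x < x') (h3 : x' < y) (z : ℝ × ℝ)
    (hz : z ∈ segment ℝ (pt x) (pt y)) (hz' : z ∈ segment ℝ (pt x') (pt y)) : z = pt y := by
  rw [segment_eq_image] at hz hz'
  obtain ⟨t, ⟨ht0, ht1⟩, rfl⟩ := hz
  obtain ⟨t', ⟨ht0', ht1'⟩, he⟩ := hz'
  have b := hε x x' y h2 h3
  have e1 := congrArg Prod.fst he
  have e2 := congrArg Prod.snd he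
  simp only [Prod.fst_add, Prod.smul_fst, smul_eq_mul, Prod.snd_add, Prod.smul_snd] at e1 e2
  unfold orient at b
  have key : (1 - t') * (ε * (((pt x').1 - (pt x).1) * ((pt y).2 - (pt x).2) -
      ((pt x').2 - (pt x).2) * ((pt y).1 - (pt x).1))) = 0 := by
    have : (1 - t') * (ε * (((pt x').1 - (pt x).1) * ((pt y).2 - (pt x).2) -
      ((pt x').2 - (pt x).2) * ((pt y).1 - (pt x).1)))
      = ε * ((((1 - t') * (pt x').1 + t' * (pt y).1) - (pt x).1) * ((pt y).2 - (pt x).2) -
        (((1 - t') * (pt x').2 + t' * (pt y).2) - (pt x).2) * ((pt y).1 - (pt x).1)) := by ring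
    rw [this, e1, e2]
    ring
  have ht : t' = 1 := by
    rcases mul_eq_zero.mp key with h | h
    · linarith
    · exact absurd h b.ne'
  rw [← he, ht]
  simp

/-- crossing chords of a convex polygon meet -/
lemma crossing {n : ℕ} (pt : Fin (2 * n) → ℝ × ℝ) (ε : ℝ)
    (hε : ∀ i j k, i < j → j < k → 0 < ε * orient (pt i) (pt j) (pt k))
    (a b c d : Fin (2 * n)) (h1 : a < b) (h2 : b < c) (h3 : c < d) :
    ∃ z, z ∈ segment ℝ (pt a) (pt c) ∧ z ∈ segment ℝ (pt b) (pt d) := by
  have A := hε b c d h2 h3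
  have B := hε a b d h1 (h2.trans h3)
  have C := hε a c d (h1.trans h2) h3
  have D := hε a b c h1 h2
  have hABCD : ε * orient (pt b) (pt c) (pt d) + ε * orient (pt a) (pt b) (pt d)
      = ε * orient (pt a) (pt c) (pt d) + ε * orient (pt a) (pt b) (pt c) := by
    unfold orient; ring
  set A' := ε * orient (pt b) (pt c) (pt d) with hA'
  set B' := ε * orient (pt a) (pt b) (pt d) with hB'
  set C' := ε * orient (pt a) (pt c) (pt d) with hC'
  set D' := ε * orient (pt a) (pt b) (pt c) with hD'
  have hAB : 0 < A' + B' := by linarith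
  refine ⟨(A' / (A' + B')) • pt a + (B' / (A' + B')) • pt c, ?_, ?_⟩
  · refine ⟨A' / (A' + B'), B' / (A' + B'), by positivity, by positivity, ?_, rfl⟩
    field_simp
  · refine ⟨C' / (A' + B'), D' / (A' + B'), by positivity, by positivity, ?_, ?_⟩
    · rw [← add_div, ← hABCD]
      field_simp
    · ext
      · simp only [Prod.fst_add, Prod.smul_fst, smul_eq_mul]
        rw [div_mul_eq_mul_div, div_mul_eq_mul_div, div_mul_eq_mul_div, div_mul_eq_mul_div,
          ← add_div, ← add_div]
        congr 1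
        rw [hA', hB', hC', hD']
        unfold orient
        ring
      · simp only [Prod.snd_add, Prod.smul_snd, smul_eq_mul]
        rw [div_mul_eq_mul_div, div_mul_eq_mul_div, div_mul_eq_mul_div, div_mul_eq_mul_div,
          ← add_div, ← add_div]
        congr 1
        rw [hA', hB', hC', hD']
        unfold orient
        ring


lemma Config.exists_sign {n : ℕ} (P : Config n) : ∃ ε : ℝ,
    ∀ i j k, i < j → j < k → 0 < ε * orient (P.pt i) (P.pt j) (P.pt k) := by
  rcases P.convex with h | h
  · exact ⟨1, fun i j k hij hjk => by simpa using h i j k hij hjk⟩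
  · exact ⟨-1, fun i j k hij hjk => by have := h i j k hij hjk; linarith⟩

lemma strict_of_succ (M : ℕ) (g : ℕ → ℕ) (h : ∀ s, s + 1 < M → g s < g (s + 1)) :
    ∀ s s', s < s' → s' < M → g s < g s' := by
  intro s s' hss
  induction hss with
  | refl => intro h'; exact h s h'
  | step hle ih =>
    rename_i t
    intro h'
    exact (ih (by omega)).trans (h t h')

lemma mono_of_succ (M : ℕ) (g : ℕ → ℕ) (h : ∀ s, s + 1 < M → g s < g (s + 1)) :
    ∀ s s', s ≤ s' → s' < M → g s ≤ g s' := by
  intro s s' hss h'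
  rcases Nat.eq_or_lt_of_le hss with rfl | h1
  · exact le_rfl
  · exact (strict_of_succ M g h s s' h1 h').le

/-- every configuration contains a long plane harmonic alternating path -/
theorem path_lower {n : ℕ} (hn : 4 ≤ n) (P : Config n) (s : ℕ) (hs : s < n) :
    ∃ (M : ℕ) (v : ℕ → Fin (2 * n)), 1 ≤ M ∧ IsPath P s (2 * (M - 1)) v ∧
      (((n / 4 : ℕ)) : ℝ) ≤ 64 * (7 + 6 * Real.log ((n / 4 : ℕ) : ℝ)) * M := by
  obtain ⟨ε, hε⟩ := P.exists_sign
  set m := n / 4 with hm
  have hm0 : 0 < m := by omega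
  -- a run of reds with consecutive labels
  obtain ⟨P0, c0, hrun⟩ : ∃ P0 c0 : ℕ, ∀ i < 2 * m, P0 + i < n ∧ (P0 + i + s) % n = c0 + i := by
    rcases Nat.lt_or_ge n (2 * s) with h | h
    · refine ⟨n - s, 0, ?_⟩
      intro i hi
      refine ⟨by omega, ?_⟩
      have : n - s + i + s = n + i := by omega
      rw [this, Nat.add_mod_left, Nat.mod_eq_of_lt (by omega)]
      omega
    · refine ⟨0, s, ?_⟩
      intro i hi
      refine ⟨by omega, ?_⟩
      rw [Nat.mod_eq_of_lt (by omega)]
      omega
  -- blue labels, read backwards along the hull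
  set q : ℕ → ℕ := fun b => if h : b < n then (P.blueLabel ⟨n - 1 - b, by omega⟩).val else 0 with hq
  have hqinj : ∀ b < m, ∀ b' < m, q b = q b' → b = b' := by
    intro b hb b' hb' h
    have h1 : b < n := by omega
    have h2 : b' < n := by omega
    simp only [hq, h1, h2, dif_pos] at h
    have h3 := P.blueLabel.injective (Fin.ext h)
    rw [Fin.mk.injEq] at h3
    omega
  obtain ⟨M, β, ρ, hM, b1, b2, b3, b4, b5, b6⟩ := comb_lower m hm0 q hqinj
  have sβ := strict_of_succ M β b2
  have sρ := strict_of_succ (M - 1) ρ (fun s hs => b4 s (by omega))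
  have mβ := mono_of_succ M β b2
  have mρ := mono_of_succ (M - 1) ρ (fun s hs => b4 s (by omega))
  have hbnd1 : ∀ t, (if t < M then β t else 0) < n := by
    intro t
    split_ifs with h
    · have := b1 t h; omega
    · omega
  -- red and blue vertices
  set rv : ℕ → Fin (2 * n) := fun t => ⟨(P0 + ρ t) % n, by
    have := Nat.mod_lt (P0 + ρ t) (show 0 < n by omega); omega⟩ with hrv
  set bv : ℕ → Fin (2 * n) := fun t => ⟨2 * n - 1 - β t, by omega⟩ with hbv
  have hrvval : ∀ t, t + 1 < M → (rv t).val = P0 + ρ t := by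
    intro t ht
    have := (hrun (ρ t) (b3 t ht)).1
    simp only [hrv]
    exact Nat.mod_eq_of_lt this
  have hbvval : ∀ t, (bv t).val = 2 * n - 1 - β t := fun t => rfl
  set v : ℕ → Fin (2 * n) := fun e => if e % 2 = 0 then bv (e / 2) else rv (e / 2) with hv
  have hrlab : ∀ t, t + 1 < M → P.label s (rv t) = c0 + ρ t := by
    intro t ht
    have h1 := hrun (ρ t) (b3 t ht)
    have h2 := hrvval t ht
    unfold Config.label
    rw [dif_pos (by rw [h2]; exact h1.1)]
    rw [h2]
    exact h1.2
  have hblab : ∀ t, t < M → P.label s (bv t) = q (β t) := by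
    intro t ht
    have h1 := b1 t ht
    unfold Config.label
    rw [dif_neg (by rw [hbvval]; omega)]
    simp only [hq]
    rw [dif_pos (show β t < n by omega)]
    congr 2
    apply Fin.ext
    simp only [hbvval]
    omega
  have hredv : ∀ t, t + 1 < M → IsRed (rv t) := by
    intro t ht
    unfold IsRed
    rw [hrvval t ht]
    exact (hrun (ρ t) (b3 t ht)).1
  have hbluev : ∀ t, t < M → ¬ IsRed (bv t) := by
    intro t ht
    unfold IsRed
    rw [hbvval]
    have := b1 t ht
    omega
  have hve : ∀ e, e % 2 = 0 → v e = bv (e / 2) := fun e he => by simp only [hv]; rw [if_pos he]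
  have hvo : ∀ e, e % 2 = 1 → v e = rv (e / 2) := fun e he => by
    simp only [hv]; rw [if_neg (by omega)]
  -- the edge e, as a red-blue chord
  have hedge : ∀ e < 2 * (M - 1), segment ℝ (P.pt (v e)) (P.pt (v (e + 1)))
      = segment ℝ (P.pt (rv (e / 2))) (P.pt (bv ((e + 1) / 2))) := by
    intro e he
    rcases Nat.mod_two_eq_zero_or_one e with h | h
    · rw [hve e h, hvo (e + 1) (by omega), segment_symm]
      have e1 : (e + 1) / 2 = e / 2 := by omega
      rw [e1]
    · rw [hvo e h, hve (e + 1) (by omega)]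
  have hends : ∀ e < 2 * (M - 1), (v e = rv (e / 2) ∧ v (e + 1) = bv ((e + 1) / 2)) ∨
      (v e = bv ((e + 1) / 2) ∧ v (e + 1) = rv (e / 2)) := by
    intro e he
    rcases Nat.mod_two_eq_zero_or_one e with h | h
    · right
      rw [hve e h, hvo (e + 1) (by omega)]
      have e1 : (e + 1) / 2 = e / 2 := by omega
      rw [e1]
      exact ⟨rfl, rfl⟩
    · left
      rw [hvo e h, hve (e + 1) (by omega)]
      exact ⟨rfl, rfl⟩
  have hwt : ∀ e < 2 * (M - 1), P.label s (v e) + P.label s (v (e + 1)) = c0 + W q β ρ e := by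
    intro e he
    rcases hends e he with ⟨h1, h2⟩ | ⟨h1, h2⟩
    · rw [h1, h2, hrlab _ (by omega), hblab _ (by omega)]
      unfold W
      ring
    · rw [h1, h2, hrlab _ (by omega), hblab _ (by omega)]
      unfold W
      ring
  have hplane : ∀ a b, a < b → b < 2 * (M - 1) →
      ∀ z ∈ segment ℝ (P.pt (v a)) (P.pt (v (a + 1))) ∩ segment ℝ (P.pt (v b)) (P.pt (v (b + 1))),
      (z = P.pt (v a) ∨ z = P.pt (v (a + 1))) ∧ (z = P.pt (v b) ∨ z = P.pt (v (b + 1))) := by
    intro a b hab hb z hz
    rw [hedge a (by omega), hedge b hb] at hz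
    obtain ⟨hz1, hz2⟩ := hz
    have hr : (rv (a / 2)).val ≤ (rv (b / 2)).val := by
      rw [hrvval _ (by omega), hrvval _ (by omega)]
      have := mρ (a / 2) (b / 2) (by omega) (by omega)
      omega
    have hbl : (bv ((b + 1) / 2)).val ≤ (bv ((a + 1) / 2)).val := by
      rw [hbvval, hbvval]
      have := mβ ((a + 1) / 2) ((b + 1) / 2) (by omega) (by omega)
      omega
    have hlt : (rv (b / 2)).val < (bv ((b + 1) / 2)).val := by
      have h1 := hredv (b / 2) (by omega)
      have h2 := hbluev ((b + 1) / 2) (by omega)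
      unfold IsRed at h1 h2
      omega
    -- common endpoints
    have hza : z = P.pt (rv (a / 2)) ∨ z = P.pt (bv ((a + 1) / 2)) →
        (z = P.pt (v a) ∨ z = P.pt (v (a + 1))) := by
      intro h
      rcases hends a (by omega) with ⟨h1, h2⟩ | ⟨h1, h2⟩
      · rw [h1, h2]; exact h
      · rw [h1, h2]; exact h.symm
    have hzb : z = P.pt (rv (b / 2)) ∨ z = P.pt (bv ((b + 1) / 2)) →
        (z = P.pt (v b) ∨ z = P.pt (v (b + 1))) := by
      intro h
      rcases hends b hb with ⟨h1, h2⟩ | ⟨h1, h2⟩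
      · rw [h1, h2]; exact h
      · rw [h1, h2]; exact h.symm
    rcases Nat.eq_or_lt_of_le hr with hr | hr
    · have hr' : rv (a / 2) = rv (b / 2) := Fin.ext hr
      rcases Nat.eq_or_lt_of_le hbl with hbl | hbl
      · exfalso
        -- both equal: impossible
        have e1 : a / 2 = b / 2 := by
          by_contra hne
          have : ρ (a / 2) < ρ (b / 2) := sρ _ _ (by omega) (by omega)
          rw [hrvval _ (by omega), hrvval _ (by omega)] at hr
          omega
        have e2 : (a + 1) / 2 = (b + 1) / 2 := by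
          by_contra hne
          have := sβ ((a + 1) / 2) ((b + 1) / 2) (by omega) (by omega)
          have h1 := b1 ((b + 1) / 2) (by omega)
          rw [hbvval, hbvval] at hbl
          omega
        omega
      · have := share_left P.pt ε hε (rv (a / 2)) (bv ((b + 1) / 2)) (bv ((a + 1) / 2))
          (by rw [hr']; exact hlt) hbl z hz1 (by rw [hr']; exact hz2)
        refine ⟨hza (Or.inl this), hzb (Or.inl ?_)⟩
        rw [this, hr']
    · rcases Nat.eq_or_lt_of_le hbl with hbl | hbl
      · have hbl' : bv ((b + 1) / 2) = bv ((a + 1) / 2) := Fin.ext hbl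
        have := share_right P.pt ε hε (rv (a / 2)) (rv (b / 2)) (bv ((a + 1) / 2))
          hr (by rw [← hbl']; exact hlt) z hz1 (by rw [← hbl']; exact hz2)
        refine ⟨hza (Or.inr this), hzb (Or.inr ?_)⟩
        rw [this, hbl']
      · exfalso
        exact nested P.pt ε hε (rv (a / 2)) (rv (b / 2)) (bv ((b + 1) / 2)) (bv ((a + 1) / 2))
          hr hlt hbl z hz1 hz2
  refine ⟨M, v, hM, ⟨?_, ?_, ?_, ?_⟩, b6⟩
  · -- simple
    intro a ha b hb hab
    rcases Nat.mod_two_eq_zero_or_one a with h | h <;>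
      rcases Nat.mod_two_eq_zero_or_one b with h' | h'
    · rw [hve a h, hve b h'] at hab
      have h1 := congrArg Fin.val hab
      rw [hbvval, hbvval] at h1
      have h2 := b1 (a / 2) (by omega)
      have h3 := b1 (b / 2) (by omega)
      by_contra hne
      rcases Nat.lt_or_ge (a / 2) (b / 2) with h4 | h4
      · have := sβ (a / 2) (b / 2) h4 (by omega); omega
      · have := sβ (b / 2) (a / 2) (by omega) (by omega); omega
    · exfalso
      rw [hve a h, hvo b h'] at hab
      have h1 := hbluev (a / 2) (by omega)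
      have h2 := hredv (b / 2) (by omega)
      rw [hab] at h1
      exact h1 h2
    · exfalso
      rw [hvo a h, hve b h'] at hab
      have h1 := hbluev (b / 2) (by omega)
      have h2 := hredv (a / 2) (by omega)
      rw [hab] at h2
      exact h1 h2
    · rw [hvo a h, hvo b h'] at hab
      have h1 := congrArg Fin.val hab
      rw [hrvval _ (by omega), hrvval _ (by omega)] at h1
      by_contra hne
      rcases Nat.lt_or_ge (a / 2) (b / 2) with h4 | h4
      · have := sρ (a / 2) (b / 2) h4 (by omega); omega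
      · have := sρ (b / 2) (a / 2) (by omega) (by omega); omega
  · -- alternating
    intro a ha
    rcases hends a ha with ⟨h1, h2⟩ | ⟨h1, h2⟩
    · rw [h1, h2]
      exact ⟨fun _ => hbluev _ (by omega), fun _ => hredv _ (by omega)⟩
    · rw [h1, h2]
      exact ⟨fun h => absurd h (hbluev _ (by omega)), fun h => absurd (hredv _ (by omega)) h⟩
  · -- plane
    intro a ha b hb hab z hz
    rcases Nat.lt_or_ge a b with h | h
    · exact hplane a b h hb z hz
    · have := hplane b a (by omega) ha z ⟨hz.2, hz.1⟩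
      exact ⟨this.2, this.1⟩
  · -- harmonic
    intro a ha b hb hab h
    rw [hwt a ha, hwt b hb] at h
    exact hab (b5 a ha b hb (by omega))


/-- a path is not longer than `2n - 1` -/
lemma IsPath.length_le {n : ℕ} {P : Config n} {s l : ℕ} {v : ℕ → Fin (2 * n)}
    (h : IsPath P s l v) : l + 1 ≤ 2 * n := by
  have h1 : Set.InjOn v (Finset.range (l + 1)) := by
    intro a ha b hb hab
    simp only [Finset.coe_range, Set.mem_Iio] at ha hb
    exact h.simple a (by omega) b (by omega) hab
  have h2 := Finset.card_le_card_of_injOn (s := Finset.range (l + 1))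
    (t := (Finset.univ : Finset (Fin (2 * n)))) v (fun _ _ => Finset.mem_univ _) h1
  simpa using h2

lemma Config.bddAbove {n : ℕ} (P : Config n) (s : ℕ) :
    BddAbove {l | ∃ v : ℕ → Fin (2 * n), IsPath P s l v} := by
  refine ⟨2 * n, ?_⟩
  rintro l ⟨v, hv⟩
  have := hv.length_le
  omega

lemma Config.le_maxPath {n : ℕ} (P : Config n) (s l : ℕ) (v : ℕ → Fin (2 * n))
    (h : IsPath P s l v) : l ≤ P.maxPath s :=
  le_csSup (P.bddAbove s) ⟨v, h⟩

/-- points on a parabola -/
lemma orient_parabola (a b c : ℝ) : orient (a, a ^ 2) (b, b ^ 2) (c, c ^ 2)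
    = (b - a) * (c - a) * (c - b) := by
  unfold orient; ring

/-- the configuration of `2n` points on a parabola -/
noncomputable def parabola (n : ℕ) (π : Equiv.Perm (Fin n)) : Config n where
  pt := fun i => ((i.val : ℝ), (i.val : ℝ) ^ 2)
  inj := by
    intro i j hij
    have := congrArg Prod.fst hij
    simp only [Nat.cast_inj] at this
    exact Fin.ext this
  convex := by
    left
    intro i j k hij hjk
    rw [orient_parabola]
    have h1 : (i.val : ℝ) < j.val := by exact_mod_cast hij
    have h2 : (j.val : ℝ) < k.val := by exact_mod_cast hjk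
    have h3 : (0 : ℝ) < j.val - i.val := by linarith
    have h4 : (0 : ℝ) < k.val - i.val := by linarith
    have h5 : (0 : ℝ) < k.val - j.val := by linarith
    positivity
  blueLabel := π

lemma one_le_maxPath {n : ℕ} (hn : 1 ≤ n) (P : Config n) (s : ℕ) : 1 ≤ P.maxPath s := by
  apply P.le_maxPath s 1 (fun e => if e = 0 then ⟨0, by omega⟩ else ⟨n, by omega⟩)
  refine ⟨?_, ?_, ?_, ?_⟩
  · intro a ha b hb hab
    have : a = 0 ∨ a = 1 := by omega
    have : b = 0 ∨ b = 1 := by omega
    rcases ‹a = 0 ∨ a = 1› with rfl | rfl <;> rcases ‹b = 0 ∨ b = 1› with rfl | rfl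
    · rfl
    · simp only [if_true, one_ne_zero, if_false, Fin.mk.injEq] at hab; omega
    · simp only [if_true, one_ne_zero, if_false, Fin.mk.injEq] at hab; omega
    · rfl
  · intro a ha
    have : a = 0 := by omega
    subst this
    unfold IsRed
    simp only [if_true]
    have : ¬ (0 + 1 = 0) := by omega
    rw [if_neg this]
    simp only [lt_self_iff_false, not_false_iff, iff_true]
    omega
  · intro a ha b hb hab
    omega
  · intro a ha b hb hab
    omega

lemma lower_real {n : ℕ} (hn : 2 ≤ n) (P : Config n) (s : ℕ) (hs : s < n) :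
    (n : ℝ) / (13000 * Real.log n) ≤ P.maxPath s := by
  have hn' : (2 : ℝ) ≤ n := by exact_mod_cast hn
  have hlog2 := Real.log_two_gt_d9
  have hlogn : Real.log 2 ≤ Real.log n := Real.log_le_log (by norm_num) hn'
  have hlogpos : 0 < Real.log n := by linarith
  have h1 : (1 : ℝ) ≤ P.maxPath s := by exact_mod_cast one_le_maxPath (by omega) P s
  rcases Nat.lt_or_ge n 4 with h4 | h4
  · have : (n : ℝ) < 4 := by exact_mod_cast h4
    refine le_trans ?_ h1
    rw [div_le_one (by positivity)]
    nlinarith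
  · obtain ⟨M, v, hM, hv, hb⟩ := path_lower h4 P s hs
    have h2 := P.le_maxPath s _ v hv
    set L : ℝ := ((P.maxPath s : ℕ) : ℝ) with hL
    have h2' : 2 * ((M : ℝ) - 1) ≤ L := by
      have : ((2 * (M - 1) : ℕ) : ℝ) ≤ P.maxPath s := by exact_mod_cast h2
      push_cast [hM] at this
      exact this
    have h3 : (M : ℝ) / 2 ≤ L := by
      have : (1 : ℝ) ≤ M := by exact_mod_cast hM
      linarith
    have h4' : (4 : ℝ) ≤ n := by exact_mod_cast h4
    have hm1 : (n : ℝ) / 8 ≤ ((n / 4 : ℕ) : ℝ) := by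
      have : n ≤ 8 * (n / 4) := by omega
      have : (n : ℝ) ≤ 8 * ((n / 4 : ℕ) : ℝ) := by exact_mod_cast this
      linarith
    have hm2 : Real.log ((n / 4 : ℕ) : ℝ) ≤ Real.log n := by
      apply Real.log_le_log
      · linarith
      · exact_mod_cast Nat.div_le_self n 4
    have hlog4 : (7 : ℝ) ≤ 6 * Real.log n := by
      have : Real.log 4 ≤ Real.log n := Real.log_le_log (by norm_num) h4'
      have e : Real.log 4 = 2 * Real.log 2 := by
        rw [show (4 : ℝ) = 2 ^ 2 by norm_num, Real.log_pow]; norm_num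
      linarith
    have hM0 : (0 : ℝ) ≤ M := by positivity
    have h5 : (n : ℝ) / 8 ≤ 64 * (12 * Real.log n) * M := by
      refine le_trans hm1 (le_trans hb ?_)
      apply mul_le_mul_of_nonneg_right _ hM0
      linarith
    rw [div_le_iff₀ (by positivity)]
    nlinarith

end Pool.Agent.Helper208.Harmonic
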