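import Pool.Agent.Helper208.Harmonic.MatchingDefs
import Pool.Agent.Helper208.Harmonic.PathLower
import Pool.Agent.Helper208.Harmonic.CombUpper

/-!
The two-sided bounds.
-/

set_option autoImplicit false

namespace Pool.Agent.Helper208.Harmonic

/-- every other edge of a path gives a matching -/
theorem path_to_matching {n : ℕ} (P : Config n) (s l : ℕ) (v : ℕ → Fin (2 * n))
    (h : IsPath P s l v) : ∃ E : Finset (Fin (2 * n) × Fin (2 * n)),
      IsMatching P s E ∧ l ≤ 2 * E.card := by
  classical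
  set rd : ℕ → Fin (2 * n) := fun e => if IsRed (v e) then v e else v (e + 1) with hrd
  set bl : ℕ → Fin (2 * n) := fun e => if IsRed (v e) then v (e + 1) else v e with hbl
  have hred : ∀ e < l, IsRed (rd e) := by
    intro e he
    have h1 := h.alternating e he
    simp only [hrd]
    split_ifs with h2
    · exact h2
    · by_contra h3
      exact h2 (h1.mpr h3)
  have hblue : ∀ e < l, ¬ IsRed (bl e) := by
    intro e he
    have h1 := h.alternating e he
    simp only [hbl]
    split_ifs with h2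
    · exact h1.mp h2
    · exact h2
  have hends : ∀ e, (rd e = v e ∧ bl e = v (e + 1)) ∨ (rd e = v (e + 1) ∧ bl e = v e) := by
    intro e
    simp only [hrd, hbl]
    split_ifs
    · left; exact ⟨rfl, rfl⟩
    · right; exact ⟨rfl, rfl⟩
  have hseg : ∀ e, segment ℝ (P.pt (v e)) (P.pt (v (e + 1)))
      = segment ℝ (P.pt (rd e)) (P.pt (bl e)) := by
    intro e
    rcases hends e with ⟨h1, h2⟩ | ⟨h1, h2⟩
    · rw [h1, h2]
    · rw [h1, h2, segment_symm]
  have hwt : ∀ e, P.label s (v e) + P.label s (v (e + 1)) = P.label s (rd e) + P.label s (bl e) := by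
    intro e
    rcases hends e with ⟨h1, h2⟩ | ⟨h1, h2⟩
    · rw [h1, h2]
    · rw [h1, h2, Nat.add_comm]
  have hne : ∀ e e', e + 1 < e' → e' < l → rd e ≠ rd e' ∧ bl e ≠ bl e' := by
    intro e e' hee he'
    have d1 : v e ≠ v e' := fun h' => by have := h.simple e (by omega) e' (by omega) h'; omega
    have d2 : v e ≠ v (e' + 1) := fun h' => by
      have := h.simple e (by omega) (e' + 1) (by omega) h'; omega
    have d3 : v (e + 1) ≠ v e' := fun h' => by
      have := h.simple (e + 1) (by omega) e' (by omega) h'; omega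
    have d4 : v (e + 1) ≠ v (e' + 1) := fun h' => by
      have := h.simple (e + 1) (by omega) (e' + 1) (by omega) h'; omega
    rcases hends e with ⟨h1, h2⟩ | ⟨h1, h2⟩ <;> rcases hends e' with ⟨h3, h4⟩ | ⟨h3, h4⟩ <;>
      rw [h1, h2, h3, h4] <;> constructor <;> assumption
  have hne' : ∀ k k', k < (l + 1) / 2 → k' < (l + 1) / 2 → k ≠ k' →
      rd (2 * k) ≠ rd (2 * k') ∧ bl (2 * k) ≠ bl (2 * k') := by
    intro k k' hk hk' hkk
    rcases Nat.lt_or_ge k k' with h2 | h2
    · exact hne (2 * k) (2 * k') (by omega) (by omega)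
    · have := hne (2 * k') (2 * k) (by omega) (by omega)
      exact ⟨this.1.symm, this.2.symm⟩
  set E : Finset (Fin (2 * n) × Fin (2 * n)) := (Finset.range ((l + 1) / 2)).image
    (fun k => (rd (2 * k), bl (2 * k))) with hE
  have hcard : E.card = (l + 1) / 2 := by
    rw [hE, Finset.card_image_of_injOn, Finset.card_range]
    intro k hk k' hk' hkk
    simp only [Finset.coe_range, Set.mem_Iio] at hk hk'
    simp only [Prod.mk.injEq] at hkk
    by_contra hnk
    exact (hne' k k' hk hk' hnk).1 hkk.1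
  refine ⟨E, ⟨?_, ?_, ?_, ?_⟩, by omega⟩
  · intro e he
    rw [hE, Finset.mem_image] at he
    obtain ⟨k, hk, rfl⟩ := he
    rw [Finset.mem_range] at hk
    exact ⟨hred _ (by omega), hblue _ (by omega)⟩
  · intro e he e' he' hee
    rw [hE, Finset.mem_image] at he he'
    obtain ⟨k, hk, rfl⟩ := he
    obtain ⟨k', hk', rfl⟩ := he'
    rw [Finset.mem_range] at hk hk'
    exact hne' k k' hk hk' (by rintro rfl; exact hee rfl)
  · intro e he e' he' hee
    rw [hE, Finset.mem_image] at he he'
    obtain ⟨k, hk, rfl⟩ := he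
    obtain ⟨k', hk', rfl⟩ := he'
    rw [Finset.mem_range] at hk hk'
    have hkk : k ≠ k' := by rintro rfl; exact hee rfl
    rw [Set.disjoint_left]
    intro z hz1 hz2
    have h3 := h.plane (2 * k) (by omega) (2 * k') (by omega) (by omega) z
      ⟨by rw [hseg]; exact hz1, by rw [hseg]; exact hz2⟩
    obtain ⟨h4, h5⟩ := h3
    have inj := P.inj
    rcases h4 with h4 | h4 <;> rcases h5 with h5 | h5 <;>
      · have h6 := inj (h4.symm.trans h5)
        have h7 := h.simple _ (by omega) _ (by omega) h6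
        omega
  · intro e he e' he' hee
    rw [hE, Finset.mem_image] at he he'
    obtain ⟨k, hk, rfl⟩ := he
    obtain ⟨k', hk', rfl⟩ := he'
    rw [Finset.mem_range] at hk hk'
    have hkk : k ≠ k' := by rintro rfl; exact hee rfl
    have h3 := h.harmonic (2 * k) (by omega) (2 * k') (by omega) (by omega)
    rw [hwt, hwt] at h3
    exact h3

/-- a plane matching is a chain -/
theorem matching_to_chain {n : ℕ} (P : Config n) (s : ℕ) (E : Finset (Fin (2 * n) × Fin (2 * n)))
    (h : IsMatching P s E) : ∃ C : Finset (ℕ × ℕ), Chain C ∧ E.card = C.card ∧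
      (∀ c ∈ C, c.1 < n ∧ c.2 < n) ∧
      (∀ c ∈ C, ∀ c' ∈ C, ∀ (hc : c.2 < n) (hc' : c'.2 < n),
        (c.1 + s) % n + (P.blueLabel ⟨n - 1 - c.2, by omega⟩).val
          = (c'.1 + s) % n + (P.blueLabel ⟨n - 1 - c'.2, by omega⟩).val → c = c') := by
  classical
  obtain ⟨ε, hε⟩ := P.exists_sign
  have hred : ∀ e ∈ E, e.1.val < n := fun e he => (h.bicoloured e he).1
  have hblue : ∀ e ∈ E, n ≤ e.2.val := fun e he => by
    have := (h.bicoloured e he).2
    unfold IsRed at this
    omega
  have hnc : ∀ e ∈ E, ∀ e' ∈ E, e ≠ e' → e.1 < e'.1 → e'.2 < e.2 := by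
    intro e he e' he' hee hrr
    by_contra hcon
    have hlt : e.2 < e'.2 := lt_of_le_of_ne (not_lt.mp hcon) (h.matching e he e' he' hee).2
    have h1 := hred e' he'
    have h2 := hblue e he
    obtain ⟨z, hz1, hz2⟩ := crossing P.pt ε hε e.1 e'.1 e.2 e'.2 hrr
      (by rw [Fin.lt_def]; omega) hlt
    exact Set.disjoint_left.mp (h.plane e he e' he' hee) hz1 hz2
  set C : Finset (ℕ × ℕ) := E.image (fun e => (e.1.val, 2 * n - 1 - e.2.val)) with hC
  have hcard : E.card = C.card := by
    rw [hC, Finset.card_image_of_injOn]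
    intro e he e' he' hee
    simp only [Prod.mk.injEq] at hee
    by_contra hne
    exact (h.matching e he e' he' hne).1 (Fin.ext hee.1)
  refine ⟨C, ?_, hcard, ?_, ?_⟩
  · intro c hc c' hc' hcc
    rw [hC, Finset.mem_image] at hc hc'
    obtain ⟨e, he, rfl⟩ := hc
    obtain ⟨e', he', rfl⟩ := hc'
    have hee : e ≠ e' := by rintro rfl; exact hcc rfl
    have h2 := e.2.isLt
    have h3 := e'.2.isLt
    rcases lt_or_gt_of_ne (h.matching e he e' he' hee).1 with h1 | h1
    · left
      have h4 := hnc e he e' he' hee h1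
      rw [Fin.lt_def] at h1 h4
      exact ⟨h1, by simp only; omega⟩
    · right
      have h4 := hnc e' he' e he hee.symm h1
      rw [Fin.lt_def] at h1
      rw [Fin.lt_def] at h4
      exact ⟨h1, by simp only; omega⟩
  · intro c hc
    rw [hC, Finset.mem_image] at hc
    obtain ⟨e, he, rfl⟩ := hc
    have h1 := hred e he
    have h2 := hblue e he
    have h3 := e.2.isLt
    exact ⟨h1, by simp only; omega⟩
  · intro c hc c' hc' hc2 hc2' heq
    rw [hC, Finset.mem_image] at hc hc'
    obtain ⟨e, he, rfl⟩ := hc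
    obtain ⟨e', he', rfl⟩ := hc'
    by_contra hcc
    have hee : e ≠ e' := by rintro rfl; exact hcc rfl
    have hlabr : ∀ d ∈ E, P.label s d.1 = (d.1.val + s) % n := by
      intro d hd
      unfold Config.label
      rw [dif_pos (hred d hd)]
    have hlabb : ∀ d ∈ E, ∀ (hj : 2 * n - 1 - d.2.val < n),
        P.label s d.2 = (P.blueLabel ⟨n - 1 - (2 * n - 1 - d.2.val), by omega⟩).val := by
      intro d hd hj
      have h2 := hblue d hd
      have h3 := d.2.isLt
      unfold Config.label
      rw [dif_neg (by omega)]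
      congr 2
      apply Fin.ext
      simp only
      omega
    apply h.harmonic e he e' he' hee
    rw [hlabr e he, hlabr e' he', hlabb e he hc2, hlabb e' he' hc2']
    exact heq

lemma IsMatching.card_le {n : ℕ} {P : Config n} {s : ℕ} {E : Finset (Fin (2 * n) × Fin (2 * n))}
    (h : IsMatching P s E) : E.card ≤ n := by
  obtain ⟨C, hC, hcard, hCn, -⟩ := matching_to_chain P s E h
  rw [hcard]
  exact hC.card_le_blue n (fun c hc => (hCn c hc).2)

lemma Config.bddAboveM {n : ℕ} (P : Config n) (s : ℕ) :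
    BddAbove {k | ∃ E : Finset (Fin (2 * n) × Fin (2 * n)), IsMatching P s E ∧ E.card = k} := by
  refine ⟨n, ?_⟩
  rintro k ⟨E, hE, rfl⟩
  exact hE.card_le

lemma Config.exists_maxMatching {n : ℕ} (P : Config n) (s : ℕ) :
    ∃ E : Finset (Fin (2 * n) × Fin (2 * n)), IsMatching P s E ∧ E.card = P.maxMatching s := by
  have : P.maxMatching s ∈
      {k | ∃ E : Finset (Fin (2 * n) × Fin (2 * n)), IsMatching P s E ∧ E.card = k} := by
    apply Nat.sSup_mem _ (P.bddAboveM s)
    refine ⟨0, ∅, ⟨?_, ?_, ?_, ?_⟩, rfl⟩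
    · intro e he; simp at he
    · intro e he; simp at he
    · intro e he; simp at he
    · intro e he; simp at he
  exact this

lemma Config.exists_maxPath {n : ℕ} (hn : 1 ≤ n) (P : Config n) (s : ℕ) :
    ∃ v : ℕ → Fin (2 * n), IsPath P s (P.maxPath s) v := by
  have hmem : P.maxPath s ∈ {l | ∃ v : ℕ → Fin (2 * n), IsPath P s l v} := by
    apply Nat.sSup_mem _ (P.bddAbove s)
    refine ⟨0, fun _ => ⟨0, by omega⟩, ⟨?_, ?_, ?_, ?_⟩⟩
    · intro a ha b hb _; omega
    · intro a ha; omega
    · intro a ha; omega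
    · intro a ha; omega
  exact hmem

/-- a longest path is at most twice as long as a largest matching -/
lemma Config.maxPath_le {n : ℕ} (hn : 1 ≤ n) (P : Config n) (s : ℕ) :
    P.maxPath s ≤ 2 * P.maxMatching s := by
  obtain ⟨v, hv⟩ := P.exists_maxPath hn s
  obtain ⟨E, hE, hl⟩ := path_to_matching P s _ v hv
  have : E.card ≤ P.maxMatching s := le_csSup (P.bddAboveM s) ⟨E, hE, rfl⟩
  omega

/-- the adversarial permutation of the blue labels -/
noncomputable def advPerm (K V n : ℕ) (hinj : ∀ j < n, ∀ j' < n,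
    glab K V n j = glab K V n j' → j = j') (hlt : ∀ j < n, glab K V n j < n) :
    Equiv.Perm (Fin n) :=
  Equiv.ofBijective (fun j : Fin n => (⟨glab K V n (n - 1 - j.val), hlt _ (by omega)⟩ : Fin n))
    (Finite.injective_iff_bijective.mp (by
      intro i j hij
      simp only [Fin.mk.injEq] at hij
      have := hinj _ (by omega) _ (by omega) hij
      exact Fin.ext (by omega)))

lemma adv_bound {K : ℕ} [hK : Fact K.Prime] (V n s : ℕ) (hV : 1 ≤ V) (hn : 1 ≤ n) (hs : s < n)
    (hKV : 2 * V ^ 2 * (V + 2) ^ 2 ≤ K) (hbs : V * bsize K V ≤ n) :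
    ∃ P : Config n, (P.maxMatching s : ℝ) ≤ 23 * n / V := by
  classical
  have hVK : V ^ 2 < K := by
    have h1 : 1 ≤ V ^ 2 := Nat.one_le_pow _ _ hV
    have h2 : 1 ≤ (V + 2) ^ 2 := Nat.one_le_pow _ _ (by omega)
    calc V ^ 2 < 2 * V ^ 2 * 1 := by omega
      _ ≤ 2 * V ^ 2 * (V + 2) ^ 2 := Nat.mul_le_mul_left _ h2
      _ ≤ K := hKV
  have hVR : (1 : ℝ) ≤ V := by exact_mod_cast hV
  have hV0 : (0 : ℝ) < V := by linarith
  set π := advPerm K V n (glab_inj V n hV hVK) (glab_lt V n) with hπ
  have hπv : ∀ b (hb : b < n), (π ⟨n - 1 - b, by omega⟩).val = glab K V n b := by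
    intro b hb
    change glab K V n (n - 1 - (n - 1 - b)) = glab K V n b
    congr 1
    omega
  set P := parabola n π with hP
  refine ⟨P, ?_⟩
  -- the largest matching
  obtain ⟨E, hE, hEc⟩ := P.exists_maxMatching s
  obtain ⟨C, hC, hl, hCn, hCinj⟩ := matching_to_chain P s E hE
  set C1 := C.filter (fun c => c.1 + s < n) with hC1
  set C2 := C.filter (fun c => ¬ c.1 + s < n) with hC2
  have hcard : C.card = C1.card + C2.card := (Finset.card_filter_add_card_filter_not _).symm
  have hb1 := glab_bound (K := K) V n hV hKV 0 (n - s) C1 (hC.subset (Finset.filter_subset _ _))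
    (by
      intro c hc
      rw [hC1, Finset.mem_filter] at hc
      omega)
    (by
      intro c hc
      rw [hC1, Finset.mem_filter] at hc
      exact (hCn c hc.1).2)
    (by
      intro c hc c' hc' h
      rw [hC1, Finset.mem_filter] at hc hc'
      have h1 := (hCn c hc.1).2
      have h2 := (hCn c' hc'.1).2
      apply hCinj c hc.1 c' hc'.1 h1 h2
      change (c.1 + s) % n + (π ⟨n - 1 - c.2, by omega⟩).val
        = (c'.1 + s) % n + (π ⟨n - 1 - c'.2, by omega⟩).val
      rw [hπv c.2 h1, hπv c'.2 h2, Nat.mod_eq_of_lt hc.2, Nat.mod_eq_of_lt hc'.2]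
      omega)
  have hb2 := glab_bound (K := K) V n hV hKV (n - s) s C2 (hC.subset (Finset.filter_subset _ _))
    (by
      intro c hc
      rw [hC2, Finset.mem_filter] at hc
      have := (hCn c hc.1).1
      omega)
    (by
      intro c hc
      rw [hC2, Finset.mem_filter] at hc
      exact (hCn c hc.1).2)
    (by
      intro c hc c' hc' h
      rw [hC2, Finset.mem_filter] at hc hc'
      have h1 := (hCn c hc.1).2
      have h2 := (hCn c' hc'.1).2
      have h3 := (hCn c hc.1).1
      have h4 := (hCn c' hc'.1).1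
      apply hCinj c hc.1 c' hc'.1 h1 h2
      change (c.1 + s) % n + (π ⟨n - 1 - c.2, by omega⟩).val
        = (c'.1 + s) % n + (π ⟨n - 1 - c'.2, by omega⟩).val
      have e1 : (c.1 + s) % n = c.1 + s - n := by
        rw [Nat.mod_eq_sub_mod (by omega), Nat.mod_eq_of_lt (by omega)]
      have e2 : (c'.1 + s) % n = c'.1 + s - n := by
        rw [Nat.mod_eq_sub_mod (by omega), Nat.mod_eq_of_lt (by omega)]
      rw [hπv c.2 h1, hπv c'.2 h2, e1, e2]
      omega)
  have hbs' : (bsize K V : ℝ) ≤ n / V := by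
    rw [le_div_iff₀ hV0]
    have : ((V * bsize K V : ℕ) : ℝ) ≤ n := by exact_mod_cast hbs
    push_cast at this
    linarith
  rw [Nat.cast_sub hs.le] at hb1
  have hlR : (P.maxMatching s : ℝ) = (C1.card : ℝ) + C2.card := by
    rw [← hEc, hl, hcard]; push_cast; ring
  have e1 : 7 * (((n : ℝ) - s) + n) / V + 7 * ((s : ℝ) + n) / V = 21 * (n / V) := by
    field_simp; ring
  have e2 : 23 * (n : ℝ) / V = 23 * (n / V) := by ring
  rw [e2]
  linarith

/-- choice of the parameters -/
theorem upper_real : ∀ n : ℕ, 2 ≤ n → ∀ s < n, ∃ P : Config n,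
    (P.maxMatching s : ℝ) ≤ 92 * n / (Real.log n) ^ ((1 : ℝ) / 12) := by
  intro n hn s hs
  have hn' : (2 : ℝ) ≤ n := by exact_mod_cast hn
  have hlogpos : 0 < Real.log n := Real.log_pos (by linarith)
  have h406 : (406 : ℝ) ^ ((1 : ℝ) / 12) ≤ 2 := by
    have h1 : (406 : ℝ) ^ ((1 : ℝ) / 12) ≤ ((2 : ℝ) ^ 12) ^ ((1 : ℝ) / 12) :=
      Real.rpow_le_rpow (by norm_num) (by norm_num) (by norm_num)
    have h2 : ((2 : ℝ) ^ 12) ^ ((1 : ℝ) / 12) = 2 := by
      rw [← Real.rpow_natCast, ← Real.rpow_mul (by norm_num)]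
      norm_num
    rw [h2] at h1; exact h1
  have hroot_pos : 0 < (Real.log n) ^ ((1 : ℝ) / 12) := Real.rpow_pos_of_pos hlogpos _
  rcases lt_or_ge (Real.log n) 406 with hsmall | hbig
  · refine ⟨parabola n (Equiv.refl _), ?_⟩
    have h1 : (Real.log n) ^ ((1 : ℝ) / 12) ≤ 2 :=
      le_trans (Real.rpow_le_rpow hlogpos.le hsmall.le (by norm_num)) h406
    have h2 : ((parabola n (Equiv.refl _)).maxMatching s : ℝ) ≤ n := by
      obtain ⟨E, hE, hEc⟩ := (parabola n (Equiv.refl _)).exists_maxMatching s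
      rw [← hEc]
      exact_mod_cast hE.card_le
    refine le_trans h2 ?_
    rw [le_div_iff₀ hroot_pos]
    nlinarith
  · set x := (Real.log n / 406) ^ ((1 : ℝ) / 12) with hx
    have hx1 : 1 ≤ x := by
      rw [hx]
      apply Real.one_le_rpow _ (by norm_num)
      rw [le_div_iff₀ (by norm_num)]; linarith
    have hx12 : x ^ 12 = Real.log n / 406 := by
      rw [hx, ← Real.rpow_natCast, ← Real.rpow_mul (by positivity)]
      norm_num
    set V := ⌊x⌋₊ with hVdef
    have hV : 1 ≤ V := by
      rw [hVdef]; exact Nat.le_floor (by exact_mod_cast hx1)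
    have hVx : (V : ℝ) ≤ x := Nat.floor_le (by linarith)
    have hVx2 : x < V + 1 := Nat.lt_floor_add_one x
    have hVR : (1 : ℝ) ≤ V := by exact_mod_cast hV
    have hV0 : (0 : ℝ) < V := by linarith
    have hV12 : (V : ℝ) ^ 12 ≤ Real.log n / 406 := by
      rw [← hx12]; exact pow_le_pow_left₀ hV0.le hVx 12
    obtain ⟨K, hKp, hK1, hK2⟩ := Nat.exists_prime_lt_and_le_two_mul (2 * V ^ 2 * (V + 2) ^ 2)
      (by positivity)
    have : Fact K.Prime := ⟨hKp⟩
    have hKR : (K : ℝ) ≤ 36 * (V : ℝ) ^ 4 := by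
      have h1 : (K : ℝ) ≤ 2 * (2 * (V : ℝ) ^ 2 * ((V : ℝ) + 2) ^ 2) := by exact_mod_cast hK2
      have h2 : ((V : ℝ) + 2) ^ 2 ≤ (3 * V) ^ 2 := pow_le_pow_left₀ (by linarith) (by linarith) 2
      calc (K : ℝ) ≤ 2 * (2 * (V : ℝ) ^ 2 * ((V : ℝ) + 2) ^ 2) := h1
        _ ≤ 2 * (2 * (V : ℝ) ^ 2 * (3 * V) ^ 2) := by
            apply mul_le_mul_of_nonneg_left _ (by norm_num)
            apply mul_le_mul_of_nonneg_left h2 (by positivity)
        _ = 36 * (V : ℝ) ^ 4 := by ring
    have hK0 : (0 : ℝ) < K := by exact_mod_cast hKp.pos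
    have hlogK : Real.log K ≤ 5 * V := by
      have h1 : Real.log K ≤ Real.log (64 * (V : ℝ) ^ 4) := by
        apply Real.log_le_log hK0
        refine le_trans hKR ?_
        apply mul_le_mul_of_nonneg_right (by norm_num) (by positivity)
      have h2 : Real.log (64 * (V : ℝ) ^ 4) = 6 * Real.log 2 + 4 * Real.log V := by
        rw [Real.log_mul (by norm_num) (by positivity), Real.log_pow,
          show (64 : ℝ) = 2 ^ 6 by norm_num, Real.log_pow]
        norm_num
      have h3 : Real.log V ≤ V - 1 := Real.log_le_sub_one_of_pos hV0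
      have h4 := Real.log_two_lt_d9
      linarith
    have hlogK0 : 0 ≤ Real.log K := Real.log_nonneg (by exact_mod_cast hKp.one_lt.le)
    have hbs : V * bsize K V ≤ n := by
      have hbpos : (0 : ℝ) < bsize K V := by exact_mod_cast bsize_pos (K := K) V
      have h1 : Real.log ((V : ℝ) * bsize K V) ≤ Real.log n := by
        rw [Real.log_mul hV0.ne' hbpos.ne']
        have h2 : Real.log (bsize K V) = (V : ℝ) ^ 7 * ((V : ℝ) + 2) ^ 4 * Real.log K := by
          unfold bsize
          push_cast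
          rw [Real.log_pow, Real.log_pow]
          push_cast
          ring
        rw [h2]
        have h3 : ((V : ℝ) + 2) ^ 4 ≤ 81 * (V : ℝ) ^ 4 := by
          calc ((V : ℝ) + 2) ^ 4 ≤ (3 * V) ^ 4 := pow_le_pow_left₀ (by linarith) (by linarith) 4
            _ = 81 * (V : ℝ) ^ 4 := by ring
        have h4 : (V : ℝ) ^ 7 * ((V : ℝ) + 2) ^ 4 * Real.log K ≤ 405 * (V : ℝ) ^ 12 := by
          calc (V : ℝ) ^ 7 * ((V : ℝ) + 2) ^ 4 * Real.log K
              ≤ (V : ℝ) ^ 7 * (81 * (V : ℝ) ^ 4) * (5 * V) := by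
                apply mul_le_mul _ hlogK hlogK0 (by positivity)
                exact mul_le_mul_of_nonneg_left h3 (by positivity)
            _ = 405 * (V : ℝ) ^ 12 := by ring
        have h5 : Real.log V ≤ (V : ℝ) ^ 12 := by
          have a1 : Real.log V ≤ V - 1 := Real.log_le_sub_one_of_pos hV0
          have a2 : (V : ℝ) ≤ (V : ℝ) ^ 12 := by
            calc (V : ℝ) = (V : ℝ) ^ 1 := by ring
              _ ≤ (V : ℝ) ^ 12 := pow_le_pow_right₀ hVR (by norm_num)
          linarith
        have h6 : 406 * (V : ℝ) ^ 12 ≤ Real.log n := by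
          have := hV12
          rw [le_div_iff₀ (by norm_num)] at this
          linarith
        linarith
      have h7 : (V : ℝ) * bsize K V ≤ n := by
        rwa [Real.log_le_log_iff (by positivity) (by linarith)] at h1
      exact_mod_cast h7
    obtain ⟨P, hP⟩ := adv_bound (K := K) V n s hV (by omega) hs hK1.le hbs
    refine ⟨P, le_trans hP ?_⟩
    have hxV : x ≤ 2 * V := by linarith
    have hxr : (Real.log n) ^ ((1 : ℝ) / 12) ≤ 2 * x := by
      have h1 : (Real.log n) ^ ((1 : ℝ) / 12) = (406 : ℝ) ^ ((1 : ℝ) / 12) * x := by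
        rw [hx, ← Real.mul_rpow (by norm_num) (by positivity)]
        congr 1
        field_simp
      rw [h1]
      exact mul_le_mul_of_nonneg_right h406 (by linarith)
    rw [div_le_div_iff₀ hV0 hroot_pos]
    have hnn : (0 : ℝ) ≤ n := by positivity
    calc 23 * (n : ℝ) * (Real.log n) ^ ((1 : ℝ) / 12) ≤ 23 * n * (4 * V) := by
          apply mul_le_mul_of_nonneg_left _ (by positivity)
          linarith
      _ = 92 * n * V := by ring

/-- bounds for the guaranteed path length -/
theorem f_bounds : ∀ n : ℕ, 2 ≤ n → ∀ s < n,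
    (n : ℝ) / (13000 * Real.log n) ≤ f n s ∧
      (f n s : ℝ) ≤ 184 * n / (Real.log n) ^ ((1 : ℝ) / 12) := by
  intro n hn s hs
  constructor
  · have hne : (Set.range fun P : Config n => P.maxPath s).Nonempty :=
      ⟨_, ⟨parabola n (Equiv.refl _), rfl⟩⟩
    obtain ⟨P, hP⟩ := Nat.sInf_mem hne
    have : f n s = P.maxPath s := hP.symm
    rw [this]
    exact lower_real hn P s hs
  · obtain ⟨P, hP⟩ := upper_real n hn s hs
    have h1 : f n s ≤ P.maxPath s := Nat.sInf_le ⟨P, rfl⟩
    have h2 := P.maxPath_le (by omega) s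
    have h3 : (f n s : ℝ) ≤ 2 * P.maxMatching s := by exact_mod_cast h1.trans h2
    calc (f n s : ℝ) ≤ 2 * P.maxMatching s := h3
      _ ≤ 2 * (92 * n / (Real.log n) ^ ((1 : ℝ) / 12)) := by linarith
      _ = _ := by ring

/-- bounds for the guaranteed matching size -/
theorem g_bounds : ∀ n : ℕ, 2 ≤ n → ∀ s < n,
    (n : ℝ) / (26000 * Real.log n) ≤ g n s ∧
      (g n s : ℝ) ≤ 92 * n / (Real.log n) ^ ((1 : ℝ) / 12) := by
  intro n hn s hs
  constructor
  · have hne : (Set.range fun P : Config n => P.maxMatching s).Nonempty :=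
      ⟨_, ⟨parabola n (Equiv.refl _), rfl⟩⟩
    obtain ⟨P, hP⟩ := Nat.sInf_mem hne
    have h0 : g n s = P.maxMatching s := hP.symm
    rw [h0]
    have h1 := lower_real hn P s hs
    have h2 : (P.maxPath s : ℝ) ≤ 2 * P.maxMatching s := by
      exact_mod_cast P.maxPath_le (by omega) s
    have h3 : (n : ℝ) / (26000 * Real.log n) = ((n : ℝ) / (13000 * Real.log n)) / 2 := by
      rw [div_div]; ring_nf
    rw [h3]
    linarith
  · obtain ⟨P, hP⟩ := upper_real n hn s hs
    refine le_trans ?_ hP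
    have : g n s ≤ P.maxMatching s := Nat.sInf_le ⟨P, rfl⟩
    exact_mod_cast this

end Pool.Agent.Helper208.Harmonic
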