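import Pool.Agent.Helper208.Harmonic.Defs

/-!
Definitions for plane harmonic alternating matchings, and the guaranteed size `g n s`.
-/

set_option autoImplicit false

namespace Pool.Agent.Helper208.Harmonic

/-- the edges of a plane harmonic alternating matching, as pairs (red end, blue end) -/
structure IsMatching {n : ℕ} (P : Config n) (s : ℕ)
    (E : Finset (Fin (2 * n) × Fin (2 * n))) : Prop where
  bicoloured : ∀ e ∈ E, IsRed e.1 ∧ ¬ IsRed e.2
  matching : ∀ e ∈ E, ∀ e' ∈ E, e ≠ e' → e.1 ≠ e'.1 ∧ e.2 ≠ e'.2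
  plane : ∀ e ∈ E, ∀ e' ∈ E, e ≠ e' →
    Disjoint (segment ℝ (P.pt e.1) (P.pt e.2)) (segment ℝ (P.pt e'.1) (P.pt e'.2))
  harmonic : ∀ e ∈ E, ∀ e' ∈ E, e ≠ e' →
    P.label s e.1 + P.label s e.2 ≠ P.label s e'.1 + P.label s e'.2

/-- the largest number of edges of a plane harmonic alternating matching -/
noncomputable def Config.maxMatching {n : ℕ} (P : Config n) (s : ℕ) : ℕ :=
  sSup {k | ∃ E : Finset (Fin (2 * n) × Fin (2 * n)), IsMatching P s E ∧ E.card = k}

/-- the number of edges of a matching guaranteed in every configuration -/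
noncomputable def g (n s : ℕ) : ℕ := sInf (Set.range fun P : Config n => P.maxMatching s)

end Pool.Agent.Helper208.Harmonic
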